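import Pool.Agent.helper62.HF.SpecV
import Pool.Agent.helper9.MS.AS1

/-!
# Row hf:AS4 (MP_07c750_an): AS1 with an operator bound in place of Schur's test
-/

set_option autoImplicit false

open scoped MatrixGroups ContDiff Topology UpperHalfPlane ComplexConjugate
open UpperHalfPlane MeasureTheory Filter Set

namespace Pool.Agent.HV

open Pool.Agent.RS Pool.Agent.MS

theorem AS4_proof (hSYB : MS.SYB_stmt) (hREP : MS.REP_stmt) (hDUL : DUL_stmt) (hGLC : RS.GLC_stmt) (hGR2 : RS.GR2_stmt)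
    (hGWB : RS.GWB_stmt) (hGFD : RS.GFD_stmt) (hGBD : RS.GBD_stmt) (hGPE : RS.GPE_stmt) (hFL0 : RS.FL0_stmt) : AS4_stmt := by
  intro Γ F c c' r s η Q φ B D hΓ hF hc hc' hr hη hφ hn hfb hfb' hB hD hBi hDi hQ hop
  have : SecondCountableTopology SL(2, ℝ) := hGLC.2.1
  have hT := hFL0.2.1 _ r c hc
  have hcont : Continuous (pk r c) := AS1_cont hT.1
  have hsupp : HasCompactSupport (pk r c) := hT.2
  have hT' := hFL0.2.1 _ r c' hc'
  have hcont' : Continuous (pk r c') := AS1_cont hT'.1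
  have hsupp' : HasCompactSupport (pk r c') := hT'.2
  have hφI : InvC Γ φ := ⟨AS1_cont hφ.1, hφ.2.1⟩
  obtain ⟨⟨hdm, -, hdf, -⟩, -⟩ := hGFD Γ F hΓ hF
  have hfin : IsFiniteMeasure (mG.restrict (dG F)) := ⟨by rw [Measure.restrict_apply_univ]; exact hdf⟩
  have hfinD : IsFiniteMeasure (mG.restrict (dG F ∩ D)) :=
    ⟨by rw [Measure.restrict_apply_univ]; exact lt_of_le_of_lt (measure_mono inter_subset_left) hdf⟩
  -- the packet coefficient
  have hb : InvG Γ (Wf (pk r c) φ) := (hGWB Γ _ _ hΓ hcont hsupp hφI).1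
  obtain ⟨m, hm⟩ := (hGBD Γ ℂ _ hΓ hb).1
  have hm0 : 0 ≤ m := le_trans (norm_nonneg _) (hm 1)
  set b := Wf (pk r c) φ with hbdef
  have hbm : Measurable b := hb.1.measurable
  have hv1m : Measurable (B.indicator b) := hbm.indicator hB
  have hv2m : Measurable (Bᶜ.indicator b) := hbm.indicator hB.compl
  have hv1b : ∀ g, ‖B.indicator b g‖ ≤ m := fun g =>
    (norm_indicator_le_norm_self b g).trans (hm g)
  have hv2b : ∀ g, ‖Bᶜ.indicator b g‖ ≤ m := fun g =>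
    (norm_indicator_le_norm_self b g).trans (hm g)
  have hv1i : ∀ (γ : Γ) (g : SL(2, ℝ)), B.indicator b ((γ : SL(2, ℝ)) * g) = B.indicator b g := by
    intro γ g
    by_cases h : g ∈ B
    · rw [indicator_of_mem h, indicator_of_mem ((hBi γ g).2 h), hb.2]
    · rw [indicator_of_notMem h, indicator_of_notMem (fun h' => h ((hBi γ g).1 h'))]
  -- the frame bounds
  have hκ : 0 ≤ (1 + η) / r := div_nonneg (by linarith) hr.le
  have hfr : ∀ u : ℍ → ℂ, InvC Γ u → qn F c r u ≤ (1 + η) / r * nn F u := by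
    intro u hu
    have h1 := hfb u hu
    rw [div_mul_eq_mul_div, le_div_iff₀ hr]
    linarith
  have hfr' : ∀ u : ℍ → ℂ, InvC Γ u → qn F c' r u ≤ (1 + η) / r * nn F u := by
    intro u hu
    have h1 := hfb' u hu
    rw [div_mul_eq_mul_div, le_div_iff₀ hr]
    linarith
  obtain ⟨w1I, -⟩ := hSYB Γ F (pk r c) _ hΓ hF hcont hsupp hκ hfr _ hv1m ⟨m, hv1b⟩
  obtain ⟨w2I, w2n⟩ := hSYB Γ F (pk r c) _ hΓ hF hcont hsupp hκ hfr _ hv2m ⟨m, hv2b⟩
  -- the periodisation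
  have hcc : Continuous (fun z => conj (pk r c z)) := Complex.continuous_conj.comp hcont
  have hcs : HasCompactSupport (fun z => conj (pk r c z)) := by
    refine hsupp.mono' (fun z hz => ?_)
    apply subset_closure
    intro h
    apply hz
    change conj (pk r c z) = 0
    rw [h, map_zero]
  obtain ⟨-, hpc, -, -, -, ⟨mp, hmp⟩, -⟩ := hGPE Γ F _ hΓ hF hcc hcs
  have hpI : ∀ (v : SL(2, ℝ) → ℂ), Measurable v → (∀ g, ‖v g‖ ≤ m) → ∀ z,
      Integrable (fun g => v g * per Γ (fun z => conj (pk r c z)) g z) (mG.restrict (dG F)) := by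
    intro v hv hvb z
    exact AS1_pint F (per Γ (fun z => conj (pk r c z))) hpc m mp hm0 hmp v hv hvb z
  set w1 := sy Γ F (fun z => conj (pk r c z)) (B.indicator b) with hw1
  set w2 := sy Γ F (fun z => conj (pk r c z)) (Bᶜ.indicator b) with hw2
  have hq : qn F c r φ = bk (cc c) r s := by
    rw [(hGR2 Γ F hΓ hF s φ hφ).2 c r hc, hn, one_mul]
  have hsum : ∀ z, ((qn F c r φ : ℝ) : ℂ) * φ z = w1 z + w2 z := by
    intro z
    rw [hq, ← hREP Γ F c r s φ hΓ hF hc hφ z, hw1, hw2]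
    unfold sy
    rw [← integral_add (hpI _ hv1m hv1b z) (hpI _ hv2m hv2b z)]
    refine integral_congr_ae (Eventually.of_forall fun g => ?_)
    change b g * _ = B.indicator b g * _ + Bᶜ.indicator b g * _
    rw [← add_mul]
    congr 1
    exact (indicator_self_add_compl_apply B b g).symm
  have hq0 : 0 ≤ qn F c r φ := by
    unfold qn iR
    exact integral_nonneg fun g => sq_nonneg _
  -- the pointwise bound
  have hWI : ∀ (w : ℍ → ℂ), InvC Γ w → ∀ h : SL(2, ℝ), Integrable (fun z : ℍ => pk r c' z * w (h • z)) := by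
    intro w hw h
    have h1 : Continuous (fun z : ℍ => pk r c' z * w (h • z)) :=
      hcont'.mul (hw.1.comp (continuous_const_smul h))
    exact h1.integrable_of_hasCompactSupport (hsupp'.mul_right)
  have hpt : ∀ h, qn F c r φ * ‖Wf (pk r c') φ h‖ ≤ ‖Wf (pk r c') w1 h‖ + ‖Wf (pk r c') w2 h‖ := by
    intro h
    have h1 : ((qn F c r φ : ℝ) : ℂ) * Wf (pk r c') φ h = Wf (pk r c') w1 h + Wf (pk r c') w2 h := by
      unfold Wf
      rw [← integral_add (hWI w1 w1I h) (hWI w2 w2I h), ← integral_const_mul]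
      refine integral_congr_ae (Eventually.of_forall fun z => ?_)
      change ((qn F c r φ : ℝ) : ℂ) * (pk r c' z * φ (h • z)) = pk r c' z * w1 (h • z) + pk r c' z * w2 (h • z)
      rw [← mul_add, ← hsum]
      ring
    have h2 : ‖((qn F c r φ : ℝ) : ℂ) * Wf (pk r c') φ h‖ = qn F c r φ * ‖Wf (pk r c') φ h‖ := by
      rw [norm_mul, Complex.norm_real, Real.norm_of_nonneg hq0]
    rw [← h2, h1]
    exact norm_add_le _ _
  -- norms
  have hW : ∀ (w : ℍ → ℂ), InvC Γ w → Measurable (fun h => ‖Wf (pk r c') w h‖) ∧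
      ∃ m : ℝ, ∀ h, |‖Wf (pk r c') w h‖| ≤ m := by
    intro w hw
    have h1 := (hGWB Γ _ _ hΓ hcont' hsupp' hw).1
    obtain ⟨k, hk⟩ := (hGBD Γ ℂ _ hΓ h1).1
    exact ⟨h1.1.norm.measurable, k, fun h => by rw [abs_norm]; exact hk h⟩
  have hmk := AS1_mink (mG.restrict (dG F ∩ D)) (fun h => ‖Wf (pk r c') w1 h‖) (fun h => ‖Wf (pk r c') w2 h‖)
    (fun h => qn F c r φ * ‖Wf (pk r c') φ h‖) (hW w1 w1I).1 (hW w2 w2I).1 (hW w1 w1I).2 (hW w2 w2I).2
    (fun h => mul_nonneg hq0 (norm_nonneg _)) hpt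
  have e0 : Real.sqrt (∫ h in dG F ∩ D, (qn F c r φ * ‖Wf (pk r c') φ h‖) ^ 2 ∂mG) =
      qn F c r φ * Real.sqrt (∫ h in dG F ∩ D, ‖Wf (pk r c') φ h‖ ^ 2 ∂mG) := by
    have h1 : (fun h => (qn F c r φ * ‖Wf (pk r c') φ h‖) ^ 2) =
        fun h => qn F c r φ ^ 2 * ‖Wf (pk r c') φ h‖ ^ 2 := by
      funext h; ring
    rw [h1, integral_const_mul, Real.sqrt_mul (sq_nonneg _), Real.sqrt_sq hq0]
  have hind : ∀ A : Set SL(2, ℝ), MeasurableSet A → iR F (fun g => ‖A.indicator b g‖ ^ 2) =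
      ∫ g in dG F ∩ A, ‖b g‖ ^ 2 ∂mG := by
    intro A hA
    unfold iR
    rw [← setIntegral_indicator hA]
    refine integral_congr_ae (Eventually.of_forall fun g => ?_)
    by_cases h : g ∈ A
    · simp only [indicator_of_mem h]
    · simp only [indicator_of_notMem h, norm_zero]
      norm_num
  have b1 : ∫ h in dG F ∩ D, ‖Wf (pk r c') w1 h‖ ^ 2 ∂mG ≤ Q / r ^ 2 * 1 * ∫ g in dG F ∩ B, ‖b g‖ ^ 2 ∂mG := by
    have h1 := hDUL Γ F (pk r c) (pk r c') B D (Q / r ^ 2) hΓ hF hcont hsupp hcont' hsupp' hB hD hDi (by positivity)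
      (fun w hw1' hw2' hw3' hw4' => by
        have h2 := hop w hw1' hw2' hw3' hw4'
        rw [div_mul_eq_mul_div, le_div_iff₀ (by positivity)]
        linarith) (B.indicator b) hv1m ⟨m, hv1b⟩ (fun g hg => by
        by_contra h
        exact hg (indicator_of_notMem h _))
    rw [hind B hB] at h1
    rw [mul_one]
    exact h1
  have b2 : ∫ h in dG F ∩ D, ‖Wf (pk r c') w2 h‖ ^ 2 ∂mG ≤
      (1 + η) / r * ((1 + η) / r * ∫ g in dG F \ B, ‖b g‖ ^ 2 ∂mG) := by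
    have h1 : ∫ h in dG F ∩ D, ‖Wf (pk r c') w2 h‖ ^ 2 ∂mG ≤ ∫ h in dG F, ‖Wf (pk r c') w2 h‖ ^ 2 ∂mG := by
      refine setIntegral_mono_set ?_ (Eventually.of_forall fun g => sq_nonneg _) (Eventually.of_forall fun g hg => hg.1)
      have h2 : (fun h => ‖Wf (pk r c') w2 h‖ ^ 2) = fun h => ‖Wf (pk r c') w2 h‖ * ‖Wf (pk r c') w2 h‖ := by
        funext h; ring
      rw [h2]
      exact AS1_int (mG.restrict (dG F)) _ ((hW w2 w2I).1.mul (hW w2 w2I).1) (AS1_mul (hW w2 w2I).2 (hW w2 w2I).2)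
    have h2 := hfr' w2 w2I
    rw [hind Bᶜ hB.compl, ← sdiff_eq] at w2n
    have h3 : qn F c' r w2 = ∫ h in dG F, ‖Wf (pk r c') w2 h‖ ^ 2 ∂mG := rfl
    rw [← h3] at h1
    exact h1.trans (h2.trans (mul_le_mul_of_nonneg_left w2n hκ))
  have hfinal : qn F c r φ * Real.sqrt (∫ h in dG F ∩ D, ‖Wf (pk r c') φ h‖ ^ 2 ∂mG) ≤
      Real.sqrt (Q / r ^ 2 * 1 * ∫ g in dG F ∩ B, ‖b g‖ ^ 2 ∂mG) +
        Real.sqrt ((1 + η) / r * ((1 + η) / r * ∫ g in dG F \ B, ‖b g‖ ^ 2 ∂mG)) := by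
    rw [← e0]
    exact hmk.trans (add_le_add (Real.sqrt_le_sqrt b1) (Real.sqrt_le_sqrt b2))
  have hnum := AS1_num r _ _ _ _ η (Q / r ^ 2) 1 hr hη (by positivity) zero_le_one
    (integral_nonneg fun g => sq_nonneg _) hfinal
  have hQr : r ^ 2 * (Q / r ^ 2) * 1 = Q := by
    field_simp
  rw [hQr] at hnum
  exact hnum

end Pool.Agent.HV
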