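import Pool.Agent.helper62.HF.SpecV
import Pool.Agent.helper9.MS.AS1

/-!
# Row hf:DVF (MP_07c750_an): the exact formula
-/

set_option autoImplicit false

open scoped MatrixGroups ContDiff Topology UpperHalfPlane ComplexConjugate
open UpperHalfPlane MeasureTheory Filter Set

namespace Pool.Agent.HV

open Pool.Agent.RS Pool.Agent.MS

theorem DVF_SB (χ β : ℝ → ℝ) (ε : ℝ) (hχ : PU χ) (hβ : SB (1 / 4) β) (j : ℤ) : SB (1 / 4) (bj χ β ε j) := by
  refine ⟨?_, fun x hx => ?_⟩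
  · have h1 : ContDiff ℝ ∞ fun x : ℝ => x / ε - (j : ℝ) := (contDiff_id.div_const ε).sub contDiff_const
    exact hβ.1.mul (hχ.sm.comp h1)
  · exact hβ.2 x fun h => hx (by unfold bj; rw [h, zero_mul])

theorem DVF_int (hFL0 : RS.FL0_stmt) (r : ℝ) (c ψ : ℍ → ℂ) (hc : TB (1 / 4) c) (hψ : Continuous ψ) (g : SL(2, ℝ)) :
    Integrable (fun z : ℍ => pk r c z * ψ (g • z)) := by
  have hT := hFL0.2.1 _ r c hc
  have hcont : Continuous (pk r c) := AS1_cont hT.1
  have hsupp : HasCompactSupport (pk r c) := hT.2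
  have h1 : Continuous (fun z : ℍ => pk r c z * ψ (g • z)) :=
    hcont.mul (hψ.comp (continuous_const_smul g))
  exact h1.integrable_of_hasCompactSupport (hsupp.mul_right)

theorem DVF_lin (hFL0 : RS.FL0_stmt) (r : ℝ) (c1 c2 ψ : ℍ → ℂ) (a b : ℂ) (h1 : TB (1 / 4) c1) (h2 : TB (1 / 4) c2)
    (hψ : Continuous ψ) (g : SL(2, ℝ)) :
    Wf (pk r (fun z => a * c1 z + b * c2 z)) ψ g = a * Wf (pk r c1) ψ g + b * Wf (pk r c2) ψ g := by
  unfold Wf
  rw [← integral_const_mul, ← integral_const_mul,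
    ← integral_add ((DVF_int hFL0 r c1 ψ h1 hψ g).const_mul a) ((DVF_int hFL0 r c2 ψ h2 hψ g).const_mul b)]
  refine integral_congr_ae (Eventually.of_forall fun z => ?_)
  show pk r (fun z => a * c1 z + b * c2 z) z * ψ (g • z) = a * (pk r c1 z * ψ (g • z)) + b * (pk r c2 z * ψ (g • z))
  unfold pk
  ring

theorem DVF_proof (hFL3 : RS.FL3_stmt) (hFL0 : RS.FL0_stmt) (hGLC : RS.GLC_stmt) (hCV1 : RS.CV1_stmt) : DVF_stmt := by
  intro χ β α ε r j ψ g hχ hβ hα hε hr hψ
  have hSB := DVF_SB χ β ε hχ hβ j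
  have hTB : TB (1 / 4) (pc (bj χ β ε j) α) := (hCV1.2.2 (1 / 4) α (bj χ β ε j) hα hSB).1
  obtain ⟨-, hx, -, hk, -, -, -⟩ := hFL0.1 _ _ hTB
  refine ⟨?_, fun v => ?_⟩
  · refine ⟨?_, fun z hz => ?_⟩
    · exact ContDiffOn.add hx.1 hk.1
    · by_cases h : xm (pc (bj χ β ε j) α) z = 0
      · have h2 : kW (pc (bj χ β ε j) α) z ≠ 0 := fun h3 => hz (by unfold ej; rw [h, h3, add_zero])
        exact hk.2 z h2
      · exact hx.2 z h
  · obtain ⟨l, hl⟩ : ∃ l, l = Real.pi / (4 * ε * r) := ⟨_, rfl⟩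
    obtain ⟨c, hc⟩ : ∃ c, c = pc (bj χ β ε j) α := ⟨_, rfl⟩
    rw [← hl]
    rw [← hc] at hTB hx hk
    have hlM : ∀ s t, lM (s + t) = lM s * lM t := hGLC.2.2.2.2.2.2.2.2.2.2.2.2.1
    have hG := hFL3 r c ψ hTB hψ (g * lM (l * v))
    have hin : HasDerivAt (fun u : ℝ => l * (u - v)) l v := by
      have h1 := ((hasDerivAt_id v).sub_const v).const_mul l
      rwa [mul_one] at h1
    have hF : HasDerivAt (fun u : ℝ => Wf (pk r c) ψ (g * lM (l * u)))
        (l • ((1 + 2 * (r : ℂ) * Complex.I) * Wf (pk r (xm c)) ψ (g * lM (l * v)) +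
          Wf (pk r (kW c)) ψ (g * lM (l * v)))) v := by
      have h0 : l * (v - v) = 0 := by ring
      rw [← h0] at hG
      have h1 := HasDerivAt.scomp v hG hin
      have h2 : ((fun u : ℝ => Wf (pk r c) ψ (g * lM (l * v) * lM u)) ∘ fun u : ℝ => l * (u - v)) =
          fun u : ℝ => Wf (pk r c) ψ (g * lM (l * u)) := by
        funext u
        show Wf (pk r c) ψ (g * lM (l * v) * lM (l * (u - v))) = Wf (pk r c) ψ (g * lM (l * u))
        rw [mul_assoc, ← hlM]
        congr 3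
        ring
      rw [h2] at h1
      exact h1
    have hE : HasDerivAt (fun v : ℝ => Complex.exp (-(((Real.pi * j * v / 2 : ℝ) : ℂ) * Complex.I)))
        (Complex.exp (-(((Real.pi * j * v / 2 : ℝ) : ℂ) * Complex.I)) * (-((((Real.pi * j / 2 : ℝ) : ℂ)) * Complex.I))) v := by
      have h1 : HasDerivAt (fun v : ℝ => (Real.pi * j * v / 2 : ℝ)) (Real.pi * j / 2) v := by
        have h2 := (hasDerivAt_id v).const_mul (Real.pi * j / 2)
        rw [mul_one] at h2
        have h3 : (fun v : ℝ => (Real.pi * j * v / 2 : ℝ)) = fun v : ℝ => Real.pi * j / 2 * id v := by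
          funext u
          simp only [id]
          ring
        rw [h3]
        exact h2
      exact ((h1.ofReal_comp.mul_const Complex.I).neg).cexp
    have hprod := hE.mul hF
    have hb1 : pc (b1 χ β ε j) α = fun z => ((Real.pi / (2 * ε) : ℝ) : ℂ) * xm c z + (-((Real.pi * j / 2 : ℝ) : ℂ)) * c z := by
      funext z
      rw [hc]
      unfold xm pc b1
      push_cast
      field_simp
      ring
    have hej : ej χ β α ε j = fun z => 1 * xm c z + 1 * kW c z := by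
      funext z
      rw [hc]
      unfold ej
      ring
    have hW1 : Wf (pk r (pc (b1 χ β ε j) α)) ψ (g * lM (l * v)) =
        ((Real.pi / (2 * ε) : ℝ) : ℂ) * Wf (pk r (xm c)) ψ (g * lM (l * v)) +
          (-((Real.pi * j / 2 : ℝ) : ℂ)) * Wf (pk r c) ψ (g * lM (l * v)) := by
      rw [hb1]
      exact DVF_lin hFL0 r (xm c) c ψ _ _ hx hTB hψ _
    have hW2 : Wf (pk r (ej χ β α ε j)) ψ (g * lM (l * v)) =
        1 * Wf (pk r (xm c)) ψ (g * lM (l * v)) + 1 * Wf (pk r (kW c)) ψ (g * lM (l * v)) := by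
      rw [hej]
      exact DVF_lin hFL0 r (xm c) (kW c) ψ _ _ hx hk hψ _
    rw [hW1, hW2, ← hc]
    have hlr : ((Real.pi / (2 * ε) : ℝ) : ℂ) = (l : ℂ) * (2 * (r : ℂ)) := by
      rw [hl]
      push_cast
      have h1 : (ε : ℂ) ≠ 0 := by exact_mod_cast hε.ne'
      have h2 : (r : ℂ) ≠ 0 := by exact_mod_cast hr.ne'
      field_simp
      norm_num
    have hval : Complex.exp (-(((Real.pi * j * v / 2 : ℝ) : ℂ) * Complex.I)) *
        (Complex.I * (((Real.pi / (2 * ε) : ℝ) : ℂ) * Wf (pk r (xm c)) ψ (g * lM (l * v)) +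
          (-((Real.pi * j / 2 : ℝ) : ℂ)) * Wf (pk r c) ψ (g * lM (l * v))) +
        (l : ℂ) * (1 * Wf (pk r (xm c)) ψ (g * lM (l * v)) + 1 * Wf (pk r (kW c)) ψ (g * lM (l * v)))) =
      Complex.exp (-(((Real.pi * j * v / 2 : ℝ) : ℂ) * Complex.I)) * (-((((Real.pi * j / 2 : ℝ) : ℂ)) * Complex.I)) *
          Wf (pk r c) ψ (g * lM (l * v)) +
        Complex.exp (-(((Real.pi * j * v / 2 : ℝ) : ℂ) * Complex.I)) *
          (l • ((1 + 2 * (r : ℂ) * Complex.I) * Wf (pk r (xm c)) ψ (g * lM (l * v)) +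
          Wf (pk r (kW c)) ψ (g * lM (l * v)))) := by
      rw [hlr, Complex.real_smul]
      ring
    rw [hval]
    exact hprod

end Pool.Agent.HV
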