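import Pool.Agent.helper62.HF.SpecV
import Pool.Agent.helper23.HF.DVF

/-!
# Row hf:CLL (MP_07c750_an): the cells
-/

set_option autoImplicit false

open scoped MatrixGroups ContDiff Topology UpperHalfPlane ComplexConjugate
open UpperHalfPlane MeasureTheory Filter Set

namespace Pool.Agent.HV

open Pool.Agent.RS Pool.Agent.MS

theorem CLL_le (χ : ℝ → ℝ) (hχ : PU χ) (J0 : ℕ) (y : ℝ) : ∑ j ∈ Finset.Icc (-(J0 : ℤ)) J0, χ (y - j) ≤ 1 := by
  obtain ⟨J1, hJ1, hJ2⟩ : ∃ J1 : ℕ, J0 ≤ J1 ∧ |y| ≤ J1 :=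
    ⟨max J0 ⌈|y|⌉₊, le_max_left _ _, (Nat.le_ceil |y|).trans (by exact_mod_cast le_max_right _ _)⟩
  rw [← hχ.su J1 y hJ2]
  refine Finset.sum_le_sum_of_subset_of_nonneg (fun j hj => ?_) fun j _ _ => (hχ.rg _).1
  rw [Finset.mem_Icc] at hj ⊢
  omega

theorem CLL_sint (w : ℝ) (a : ℝ → ℝ) (ha : SB w a) : Integrable (fun x => a x ^ 2) := by
  have h1 : Continuous fun x => a x ^ 2 := ha.1.continuous.pow 2
  refine h1.integrable_of_hasCompactSupport (HasCompactSupport.intro (isCompact_Icc (a := -w) (b := w)) fun x hx => ?_)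
  have h2 : a x = 0 := by
    by_contra h
    exact hx (abs_le.mp (ha.2 x h))
  rw [h2]
  norm_num

theorem CLL_proof (hFL0 : RS.FL0_stmt) (hCV1 : RS.CV1_stmt) : CLL_stmt := by
  intro χ β ε hχ hβ hε
  have hb : ∀ j : ℤ, SB (1 / 4) (bj χ β ε j) := fun j => DVF_SB χ β ε hχ hβ j
  have hb1 : ∀ j : ℤ, SB (1 / 4) (b1 χ β ε j) := by
    intro j
    refine ⟨?_, fun x hx => ?_⟩
    · have h1 : ContDiff ℝ ∞ fun x : ℝ => Real.pi / 2 * (x / ε - (j : ℝ)) :=
        contDiff_const.mul ((contDiff_id.div_const ε).sub contDiff_const)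
      exact h1.mul (hb j).1
    · exact (hb j).2 x fun h => hx (by unfold b1; rw [h, mul_zero])
  have hcell : ∀ (j : ℤ) (x : ℝ), bj χ β ε j x ≠ 0 → |x / ε - j| ≤ 1 := by
    intro j x hx
    exact hχ.sp _ fun h => hx (by unfold bj; rw [h, mul_zero])
  refine ⟨fun j => ⟨hb j, hb1 j⟩, ?_, ?_, ?_⟩
  · intro j x hx
    have h1 := hcell j x hx
    have h2 : x - j * ε = ε * (x / ε - j) := by
      field_simp
    rw [h2, abs_mul, abs_of_pos hε]
    nlinarith
  · intro J0
    have hsq : ∀ x, ∑ j ∈ Finset.Icc (-(J0 : ℤ)) J0, bj χ β ε j x ^ 2 ≤ β x ^ 2 := by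
      intro x
      have h1 : ∀ j ∈ Finset.Icc (-(J0 : ℤ)) (J0 : ℤ), bj χ β ε j x ^ 2 ≤ β x ^ 2 * χ (x / ε - j) := by
        intro j _
        obtain ⟨h3, h4⟩ := hχ.rg (x / ε - j)
        unfold bj
        rw [mul_pow]
        apply mul_le_mul_of_nonneg_left _ (sq_nonneg _)
        nlinarith
      refine (Finset.sum_le_sum h1).trans ?_
      rw [← Finset.mul_sum]
      have h2 := CLL_le χ hχ J0 (x / ε)
      nlinarith [sq_nonneg (β x)]
    have hsq1 : ∀ x, ∑ j ∈ Finset.Icc (-(J0 : ℤ)) J0, b1 χ β ε j x ^ 2 ≤ 3 * β x ^ 2 := by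
      intro x
      have h1 : ∀ j ∈ Finset.Icc (-(J0 : ℤ)) (J0 : ℤ), b1 χ β ε j x ^ 2 ≤ 3 * bj χ β ε j x ^ 2 := by
        intro j _
        by_cases hz : bj χ β ε j x = 0
        · unfold b1
          rw [hz]
          norm_num
        · have h3 := abs_le.mp (hcell j x hz)
          have h4 : (x / ε - j) ^ 2 ≤ 1 := by nlinarith
          have h5 : (Real.pi / 2) ^ 2 ≤ 3 := by
            have := Real.pi_lt_d2
            have := Real.pi_pos
            nlinarith
          unfold b1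
          rw [mul_pow, mul_pow]
          apply mul_le_mul_of_nonneg_right _ (sq_nonneg _)
          nlinarith [sq_nonneg (x / ε - j), sq_nonneg (Real.pi / 2)]
      refine (Finset.sum_le_sum h1).trans ?_
      rw [← Finset.mul_sum]
      exact mul_le_mul_of_nonneg_left (hsq x) (by norm_num)
    constructor
    · rw [← integral_finset_sum _ fun j _ => CLL_sint _ _ (hb j)]
      exact integral_mono (integrable_finset_sum _ fun j _ => CLL_sint _ _ (hb j)) (CLL_sint _ _ hβ) hsq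
    · rw [← integral_finset_sum _ fun j _ => CLL_sint _ _ (hb1 j), ← integral_const_mul]
      exact integral_mono (integrable_finset_sum _ fun j _ => CLL_sint _ _ (hb1 j)) ((CLL_sint _ _ hβ).const_mul 3) hsq1
  · intro J0 α r ψ g hJ hα hψ
    unfold Wf
    rw [← integral_finset_sum _ fun j _ =>
      DVF_int hFL0 r (pc (bj χ β ε j) α) ψ (hCV1.2.2 (1 / 4) α (bj χ β ε j) hα (hb j)).1 hψ g]
    refine integral_congr_ae (Eventually.of_forall fun z => ?_)
    show ∑ j ∈ Finset.Icc (-(J0 : ℤ)) J0, pk r (pc (bj χ β ε j) α) z * ψ (g • z) = pk r (pc β α) z * ψ (g • z)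
    rw [← Finset.sum_mul]
    congr 1
    unfold pk
    rw [← Finset.sum_mul]
    congr 1
    unfold pc
    rw [← Complex.ofReal_sum, ← Finset.sum_mul]
    congr 2
    unfold bj
    rw [← Finset.mul_sum]
    by_cases h : β z.re = 0
    · rw [h, zero_mul]
    · have h1 := hβ.2 _ h
      rw [hχ.su J0 (z.re / ε) (by
        rw [abs_div, abs_of_pos hε, div_le_iff₀ hε]
        linarith), mul_one]

end Pool.Agent.HV
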