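import Pool.Agent.helper84.HF.SpecH

set_option autoImplicit false

open Finset

namespace Pool.Agent.HF

open Classical in
/-- the fibre -/
noncomputable def BSE_fb {α κ : Type} (X : Finset α) (g : α → κ) (j : κ) : Finset α := X.filter (fun x => g x = j)

open Classical in
/-- the image -/
noncomputable def BSE_im {α κ : Type} (X : Finset α) (g : α → κ) : Finset κ := X.image g

theorem BSE_mem_fb {α κ : Type} (X : Finset α) (g : α → κ) (j : κ) (x : α) :
    x ∈ BSE_fb X g j ↔ x ∈ X ∧ g x = j := by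
  classical
  unfold BSE_fb
  exact Finset.mem_filter

theorem BSE_mem_im {α κ : Type} (X : Finset α) (g : α → κ) (j : κ) :
    j ∈ BSE_im X g ↔ ∃ x ∈ X, g x = j := by
  classical
  unfold BSE_im
  exact Finset.mem_image

theorem BSE_chain (hHCH : HCH_stmt) {α ι κ : Type} (X : Finset α) (f : α → ι) (g : α → κ) (hX : X.Nonempty) :
    H X (fun x => (f x, g x)) =
      H X g + ∑ j ∈ BSE_im X g, ((BSE_fb X g j).card : ℝ) / X.card * H (BSE_fb X g j) f :=
  hHCH α ι κ X f g hX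

theorem BSE_mass {α κ : Type} (X : Finset α) (g : α → κ) (hX : X.Nonempty) :
    ∑ j ∈ BSE_im X g, ((BSE_fb X g j).card : ℝ) / X.card = 1 := by
  classical
  have h0 : (0 : ℝ) < X.card := by exact_mod_cast hX.card_pos
  rw [← Finset.sum_div, div_eq_one_iff_eq h0.ne', ← Nat.cast_sum]
  congr 1
  have h1 : X.card = ∑ j ∈ X.image g, (X.filter fun x => g x = j).card :=
    Finset.card_eq_sum_card_fiberwise fun x hx => Finset.mem_image_of_mem _ hx
  have h2 : BSE_im X g = X.image g := by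
    ext j
    rw [BSE_mem_im, Finset.mem_image]
  rw [h1, h2]
  refine Finset.sum_congr rfl fun j _ => ?_
  have h3 : BSE_fb X g j = X.filter fun x => g x = j := by
    ext x
    rw [BSE_mem_fb, Finset.mem_filter]
  rw [h3]

theorem BSE_nn (hHBS : HBS_stmt) {α ι : Type} (X : Finset α) (f : α → ι) (hX : X.Nonempty) : 0 ≤ H X f :=
  (hHBS α ι Unit X f (fun _ => ()) hX).1

theorem BSE_le (hHBS : HBS_stmt) {α ι : Type} (X : Finset α) (f : α → ι) (hX : X.Nonempty) (T : Finset ι)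
    (hT : ∀ x ∈ X, f x ∈ T) : H X f ≤ Real.log T.card :=
  (hHBS α ι Unit X f (fun _ => ()) hX).2.1 T hT

theorem BSE_inj (hHBS : HBS_stmt) {α ι : Type} (X : Finset α) (f : α → ι) (hX : X.Nonempty)
    (h : ∀ x ∈ X, ∀ y ∈ X, f x = f y → x = y) : H X f = Real.log X.card :=
  (hHBS α ι Unit X f (fun _ => ()) hX).2.2.1 h

theorem BSE_mon (hHBS : HBS_stmt) {α ι κ : Type} (X : Finset α) (f : α → ι) (g : α → κ) (hX : X.Nonempty)
    (h : ∀ x ∈ X, ∀ y ∈ X, f x = f y → g x = g y) : H X g ≤ H X f :=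
  (hHBS α ι κ X f g hX).2.2.2 h

theorem BSE_sub (hHBS : HBS_stmt) (hHSM : HSM_stmt) {α ι κ : Type} (X : Finset α) (f : α → ι) (g : α → κ)
    (hX : X.Nonempty) : H X (fun x => (f x, g x)) ≤ H X f + H X g := by
  have h1 := hHSM α ι κ Unit X f g (fun _ => ()) hX
  have h2 : H X (fun x => (f x, g x)) ≤ H X (fun x => (f x, g x, ())) :=
    BSE_mon hHBS X _ _ hX fun x _ y _ h => by
      have a := (Prod.ext_iff.mp h).1
      have b := (Prod.ext_iff.mp (Prod.ext_iff.mp h).2).1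
      exact Prod.ext a b
  have h3 : H X (fun x => (f x, ())) ≤ H X f :=
    BSE_mon hHBS X _ _ hX fun x _ y _ h => Prod.ext h rfl
  have h4 : H X (fun x => (g x, ())) ≤ H X g :=
    BSE_mon hHBS X _ _ hX fun x _ y _ h => Prod.ext h rfl
  have h5 := BSE_nn hHBS X (fun _ => ()) hX
  linarith

theorem BSE_card {α β : Type} (X : Finset α) (Z : Finset β) (e : α → β)
    (hinj : ∀ x ∈ X, ∀ y ∈ X, e x = e y → x = y) (him : ∀ z, z ∈ Z ↔ ∃ x ∈ X, e x = z) : X.card = Z.card := by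
  classical
  have h1 : Z = X.image e := by
    ext z
    rw [him z, Finset.mem_image]
  rw [h1, Finset.card_image_of_injOn]
  exact fun x hx y hy h => hinj x hx y hy h

theorem BSE_bij {α β ι : Type} (X : Finset α) (Z : Finset β) (e : α → β) (g : β → ι)
    (hinj : ∀ x ∈ X, ∀ y ∈ X, e x = e y → x = y) (him : ∀ z, z ∈ Z ↔ ∃ x ∈ X, e x = z) :
    H X (fun x => g (e x)) = H Z g := by
  classical
  unfold H
  have h1 : X.card = Z.card := BSE_card X Z e hinj him
  have h2 : ∀ (D : DecidableEq ι), @Finset.image α ι D (fun x => g (e x)) X = @Finset.image β ι D g Z := by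
    intro D
    ext i
    rw [Finset.mem_image, Finset.mem_image]
    constructor
    · rintro ⟨x, hx, hi⟩
      exact ⟨e x, (him _).mpr ⟨x, hx, rfl⟩, hi⟩
    · rintro ⟨z, hz, hi⟩
      obtain ⟨x, hx, hxz⟩ := (him z).mp hz
      exact ⟨x, hx, by rw [hxz]; exact hi⟩
  rw [h2]
  refine Finset.sum_congr rfl fun i _ => ?_
  rw [h1]
  congr 3
  refine BSE_card _ _ e ?_ ?_
  · intro x hx y hy h
    exact hinj x (Finset.mem_filter.mp hx).1 y (Finset.mem_filter.mp hy).1 h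
  · intro z
    constructor
    · intro hz
      obtain ⟨hz1, hz2⟩ := Finset.mem_filter.mp hz
      obtain ⟨x, hx, hxz⟩ := (him z).mp hz1
      exact ⟨x, Finset.mem_filter.mpr ⟨hx, by show g (e x) = i; rw [hxz]; exact hz2⟩, hxz⟩
    · rintro ⟨x, hx, hxz⟩
      obtain ⟨hx1, hx2⟩ := Finset.mem_filter.mp hx
      exact Finset.mem_filter.mpr ⟨(him z).mpr ⟨x, hx1, hxz⟩, by rw [← hxz]; exact hx2⟩

theorem BSE_proof (hHBS : HBS_stmt) (hHCH : HCH_stmt) (hHSM : HSM_stmt) : BSE_stmt := by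
  classical
  intro Y hY0
  obtain ⟨y0, hy0⟩ := hY0
  have hY : Y.Nonempty := ⟨y0, hy0⟩
  obtain ⟨X, hXd⟩ : ∃ X, X = QE Y := ⟨_, rfl⟩
  have hmem : ∀ q : ℕ × ℕ × ℕ × ℕ, q ∈ X ↔
      q.1 ∈ Y ∧ q.2.1 ∈ Y ∧ q.2.2.1 ∈ Y ∧ q.2.2.2 ∈ Y ∧ q.1 + q.2.1 = q.2.2.1 + q.2.2.2 := by
    intro q
    rw [hXd]
    unfold QE
    rw [Finset.mem_filter, Finset.mem_product, Finset.mem_product, Finset.mem_product]
    tauto
  have hX : X.Nonempty := ⟨(y0, y0, y0, y0), (hmem _).mpr ⟨hy0, hy0, hy0, hy0, rfl⟩⟩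
  have hYc : (0 : ℝ) < Y.card := by exact_mod_cast hY.card_pos
  have hXc : (0 : ℝ) < X.card := by exact_mod_cast hX.card_pos
  obtain ⟨l, hl⟩ : ∃ l, l = Real.log Y.card := ⟨_, rfl⟩
  obtain ⟨g, hg⟩ : ∃ g, g = G0 Y := ⟨_, rfl⟩
  have hgX : Real.log X.card = 3 * l - g := by
    rw [hg, hl, hXd]
    unfold G0
    ring
  have hlog2 : Real.log ((Y ×ˢ Y).card : ℝ) = 2 * l := by
    rw [Finset.card_product, Nat.cast_mul, Real.log_mul hYc.ne' hYc.ne', hl]
    ring
  -- `0 ≤ g`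
  have hg0 : 0 ≤ g := by
    have h1 : X.card ≤ (Y ×ˢ Y ×ˢ Y).card := by
      refine Finset.card_le_card_of_injOn (fun q => (q.1, q.2.1, q.2.2.1)) (fun q hq => ?_) fun q hq q' hq' h => ?_
      · obtain ⟨a1, a2, a3, a4, a5⟩ := (hmem q).mp hq
        exact Finset.mem_product.mpr ⟨a1, Finset.mem_product.mpr ⟨a2, a3⟩⟩
      · obtain ⟨a1, a2, a3, a4, a5⟩ := (hmem q).mp hq
        obtain ⟨b1, b2, b3, b4, b5⟩ := (hmem q').mp hq'
        simp only [Prod.mk.injEq] at h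
        obtain ⟨c1, c2, c3⟩ := h
        have c4 : q.2.2.2 = q'.2.2.2 := by omega
        exact Prod.ext c1 (Prod.ext c2 (Prod.ext c3 c4))
    have h2 : Real.log X.card ≤ 3 * l := by
      have h3 : (X.card : ℝ) ≤ ((Y ×ˢ Y ×ˢ Y).card : ℝ) := by exact_mod_cast h1
      have h4 := Real.log_le_log hXc h3
      rw [Finset.card_product, Finset.card_product, Nat.cast_mul, Nat.cast_mul,
        Real.log_mul hYc.ne' (mul_pos hYc hYc).ne', Real.log_mul hYc.ne' hYc.ne', ← hl] at h4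
      linarith
    linarith
  let S : ℕ × ℕ × ℕ × ℕ → ℕ := fun q => q.1 + q.2.1
  let R : ℕ → Finset ℕ := fun s => Y.filter fun a => a ≤ s ∧ s - a ∈ Y
  have hR : ∀ s a, a ∈ R s ↔ a ∈ Y ∧ a ≤ s ∧ s - a ∈ Y := fun s a => Finset.mem_filter
  have hF : ∀ s q, q ∈ BSE_fb X S s ↔ q ∈ X ∧ q.1 + q.2.1 = s := fun s q => BSE_mem_fb X S s q
  -- the fibres
  have hinj : ∀ s, ∀ q ∈ BSE_fb X S s, ∀ q' ∈ BSE_fb X S s,
      ((q.1, q.2.2.1) : ℕ × ℕ) = (q'.1, q'.2.2.1) → q = q' := by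
    intro s q hq q' hq' h
    obtain ⟨a0, a5⟩ := (hF s q).mp hq
    obtain ⟨b0, b5⟩ := (hF s q').mp hq'
    obtain ⟨_, _, _, _, a6⟩ := (hmem q).mp a0
    obtain ⟨_, _, _, _, b6⟩ := (hmem q').mp b0
    simp only [Prod.mk.injEq] at h
    obtain ⟨c1, c2⟩ := h
    have c3 : q.2.1 = q'.2.1 := by omega
    have c4 : q.2.2.2 = q'.2.2.2 := by omega
    exact Prod.ext c1 (Prod.ext c3 (Prod.ext c2 c4))
  have him : ∀ s, ∀ z : ℕ × ℕ, z ∈ R s ×ˢ R s ↔ ∃ q ∈ BSE_fb X S s, ((q.1, q.2.2.1) : ℕ × ℕ) = z := by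
    intro s z
    rw [Finset.mem_product, hR, hR]
    constructor
    · rintro ⟨⟨a1, a2, a3⟩, b1, b2, b3⟩
      refine ⟨(z.1, s - z.1, z.2, s - z.2), (hF s _).mpr ⟨(hmem _).mpr ⟨a1, a3, b1, b3, ?_⟩, ?_⟩, rfl⟩
      · show z.1 + (s - z.1) = z.2 + (s - z.2)
        omega
      · show z.1 + (s - z.1) = s
        omega
    · rintro ⟨q, hq, rfl⟩
      obtain ⟨a0, a5⟩ := (hF s q).mp hq
      obtain ⟨a1, a2, a3, a4, a6⟩ := (hmem q).mp a0
      refine ⟨⟨a1, ?_, ?_⟩, a3, ?_, ?_⟩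
      · show q.1 ≤ s
        omega
      · show s - q.1 ∈ Y
        rw [show s - q.1 = q.2.1 by omega]
        exact a2
      · show q.2.2.1 ≤ s
        omega
      · show s - q.2.2.1 ∈ Y
        rw [show s - q.2.2.1 = q.2.2.2 by omega]
        exact a4
  have hcard : ∀ s, (BSE_fb X S s).card = (R s).card * (R s).card := by
    intro s
    rw [BSE_card (BSE_fb X S s) (R s ×ˢ R s) (fun q => (q.1, q.2.2.1)) (hinj s) (him s), Finset.card_product]
  have hne : ∀ s ∈ BSE_im X S, (BSE_fb X S s).Nonempty := by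
    intro s hs
    obtain ⟨q, hq, hqs⟩ := (BSE_mem_im X S s).mp hs
    exact ⟨q, (hF s q).mpr ⟨hq, hqs⟩⟩
  have hRne : ∀ s ∈ BSE_im X S, (R s).Nonempty := by
    intro s hs
    have h1 := (hne s hs).card_pos
    rw [hcard s] at h1
    exact Finset.card_pos.mp (Nat.pos_of_mul_pos_left h1)
  have hP : ∀ s ∈ BSE_im X S, 0 < ((BSE_fb X S s).card : ℝ) / X.card := fun s hs =>
    div_pos (by exact_mod_cast (hne s hs).card_pos) hXc
  have hlogF : ∀ s ∈ BSE_im X S, Real.log ((BSE_fb X S s).card : ℝ) = 2 * Real.log (R s).card := by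
    intro s hs
    have h1 : ((R s).card : ℝ) ≠ 0 := by
      have := (hRne s hs).card_pos
      exact_mod_cast this.ne'
    rw [hcard s, Nat.cast_mul, Real.log_mul h1 h1]
    ring
  -- `A`
  obtain ⟨A, hA⟩ : ∃ A, A = ∑ s ∈ BSE_im X S, ((BSE_fb X S s).card : ℝ) / X.card * Real.log (R s).card := ⟨_, rfl⟩
  have hid : H X (fun q => q) = 3 * l - g := by
    rw [BSE_inj hHBS X (fun q => q) hX fun x _ y _ h => h, hgX]
  have hid2 : H X (fun q => q) ≤ H X S + 2 * A := by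
    have h1 := BSE_chain hHCH X (fun q => q) S hX
    have h2 : H X (fun q => q) ≤ H X (fun q => (q, S q)) :=
      BSE_mon hHBS X _ _ hX fun x _ y _ h => (Prod.ext_iff.mp h).1
    refine h2.trans (h1.trans_le ?_)
    rw [hA, Finset.mul_sum]
    refine add_le_add_right (Finset.sum_le_sum fun s hs => ?_) _
    rw [BSE_inj hHBS (BSE_fb X S s) (fun q => q) (hne s hs) fun x _ y _ h => h, hlogF s hs]
    linarith
  have hab : H X S + A ≤ 2 * l := by
    have h1 := BSE_chain hHCH X (fun q => (q.1, q.2.1)) S hX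
    have h2 : H X (fun q => ((q.1, q.2.1), S q)) ≤ H X (fun q => (q.1, q.2.1)) :=
      BSE_mon hHBS X _ _ hX fun x _ y _ h => by
        simp only [Prod.mk.injEq] at h
        refine Prod.ext (Prod.ext h.1 h.2) ?_
        show x.1 + x.2.1 = y.1 + y.2.1
        rw [h.1, h.2]
    have h3 : H X (fun q => (q.1, q.2.1)) ≤ 2 * l := by
      rw [← hlog2]
      refine BSE_le hHBS X _ hX (Y ×ˢ Y) fun q hq => ?_
      obtain ⟨a1, a2, a3, a4, a5⟩ := (hmem q).mp hq
      exact Finset.mem_product.mpr ⟨a1, a2⟩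
    have h4 : A ≤ ∑ j ∈ BSE_im X S, ((BSE_fb X S j).card : ℝ) / X.card * H (BSE_fb X S j) (fun q => (q.1, q.2.1)) := by
      rw [hA]
      refine Finset.sum_le_sum fun s hs => mul_le_mul_of_nonneg_left ?_ (hP s hs).le
      have k1 : H (BSE_fb X S s) (fun q => q) ≤ H (BSE_fb X S s) (fun q => ((q.1, q.2.1), (q.2.2.1, q.2.2.2))) :=
        BSE_mon hHBS _ _ _ (hne s hs) fun x _ y _ h => by
          simp only [Prod.mk.injEq] at h
          exact Prod.ext h.1.1 (Prod.ext h.1.2 (Prod.ext h.2.1 h.2.2))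
      have k2 := BSE_sub hHBS hHSM (BSE_fb X S s) (fun q => (q.1, q.2.1)) (fun q => (q.2.2.1, q.2.2.2)) (hne s hs)
      have k3 : H (BSE_fb X S s) (fun q => (q.2.2.1, q.2.2.2)) ≤ Real.log (R s).card := by
        have k4 := BSE_le hHBS (BSE_fb X S s) (fun q => (q.2.2.1, q.2.2.2)) (hne s hs)
          ((R s).image fun a => (a, s - a)) (fun q hq => by
            have k5 := (him s (q.1, q.2.2.1)).mpr ⟨q, hq, rfl⟩
            obtain ⟨a0, a5⟩ := (hF s q).mp hq
            obtain ⟨a1, a2, a3, a4, a6⟩ := (hmem q).mp a0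
            refine Finset.mem_image.mpr ⟨q.2.2.1, (Finset.mem_product.mp k5).2, ?_⟩
            refine Prod.ext rfl ?_
            show s - q.2.2.1 = q.2.2.2
            omega)
        refine k4.trans (Real.log_le_log ?_ ?_)
        · have : 0 < ((R s).image fun a => (a, s - a)).card := ((hRne s hs).image _).card_pos
          exact_mod_cast this
        · exact_mod_cast Finset.card_image_le
      rw [BSE_inj hHBS (BSE_fb X S s) (fun q => q) (hne s hs) fun x _ y _ h => h, hlogF s hs] at k1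
      linarith
    linarith
  have hAl : l - g ≤ A := by linarith
  -- the difference
  have hdl : H X (fun q => (q.1 : ℤ) - q.2.2.2) ≤ l + g := by
    have h1 := hHSM (ℕ × ℕ × ℕ × ℕ) ℕ ℕ ℤ X (fun q => q.1) (fun q => q.2.1) (fun q => (q.1 : ℤ) - q.2.2.2) hX
    have h2 : H X (fun q => q) ≤ H X (fun q => (q.1, q.2.1, (q.1 : ℤ) - q.2.2.2)) :=
      BSE_mon hHBS X _ _ hX fun x hx y hy h => by
        obtain ⟨_, _, _, _, a6⟩ := (hmem x).mp hx
        obtain ⟨_, _, _, _, b6⟩ := (hmem y).mp hy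
        simp only [Prod.mk.injEq] at h
        obtain ⟨c1, c2, c3⟩ := h
        have c4 : x.2.2.2 = y.2.2.2 := by omega
        have c5 : x.2.2.1 = y.2.2.1 := by omega
        exact Prod.ext c1 (Prod.ext c2 (Prod.ext c5 c4))
    have h3 : H X (fun q => (q.1, (q.1 : ℤ) - q.2.2.2)) ≤ 2 * l := by
      have k1 := BSE_mon hHBS X (fun q => (q.1, q.2.2.2)) (fun q => (q.1, (q.1 : ℤ) - q.2.2.2)) hX
        fun x _ y _ h => by
          simp only [Prod.mk.injEq] at h
          rw [h.1, h.2]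
      have k2 : H X (fun q => (q.1, q.2.2.2)) ≤ 2 * l := by
        rw [← hlog2]
        refine BSE_le hHBS X _ hX (Y ×ˢ Y) fun q hq => ?_
        obtain ⟨a1, a2, a3, a4, a5⟩ := (hmem q).mp hq
        exact Finset.mem_product.mpr ⟨a1, a4⟩
      linarith
    have h4 : H X (fun q => (q.2.1, (q.1 : ℤ) - q.2.2.2)) ≤ 2 * l := by
      have k1 := BSE_mon hHBS X (fun q => (q.2.1, q.2.2.1)) (fun q => (q.2.1, (q.1 : ℤ) - q.2.2.2)) hX
        fun x hx y hy h => by
          obtain ⟨_, _, _, _, a6⟩ := (hmem x).mp hx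
          obtain ⟨_, _, _, _, b6⟩ := (hmem y).mp hy
          simp only [Prod.mk.injEq] at h
          obtain ⟨c1, c2⟩ := h
          refine Prod.ext c1 ?_
          show (x.1 : ℤ) - x.2.2.2 = (y.1 : ℤ) - y.2.2.2
          omega
      have k2 : H X (fun q => (q.2.1, q.2.2.1)) ≤ 2 * l := by
        rw [← hlog2]
        refine BSE_le hHBS X _ hX (Y ×ˢ Y) fun q hq => ?_
        obtain ⟨a1, a2, a3, a4, a5⟩ := (hmem q).mp hq
        exact Finset.mem_product.mpr ⟨a2, a3⟩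
      linarith
    have h1' : H X (fun q => (q.1, q.2.1, (q.1 : ℤ) - q.2.2.2)) + H X (fun q => (q.1 : ℤ) - q.2.2.2) ≤
        H X (fun q => (q.1, (q.1 : ℤ) - q.2.2.2)) + H X (fun q => (q.2.1, (q.1 : ℤ) - q.2.2.2)) := h1
    linarith
  have hsum : ∑ s ∈ BSE_im X S, ((BSE_fb X S s).card : ℝ) / X.card * H (R s ×ˢ R s) (fun z => z.1 + z.2) ≤ l + g := by
    have h1 := BSE_chain hHCH X (fun q => (q.1 : ℤ) - q.2.2.2) S hX
    have h2 := BSE_sub hHBS hHSM X (fun q => (q.1 : ℤ) - q.2.2.2) S hX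
    have h3 : ∑ s ∈ BSE_im X S, ((BSE_fb X S s).card : ℝ) / X.card * H (R s ×ˢ R s) (fun z => z.1 + z.2) ≤
        ∑ s ∈ BSE_im X S, ((BSE_fb X S s).card : ℝ) / X.card * H (BSE_fb X S s) (fun q => (q.1 : ℤ) - q.2.2.2) := by
      refine Finset.sum_le_sum fun s hs => mul_le_mul_of_nonneg_left ?_ (hP s hs).le
      rw [← BSE_bij (BSE_fb X S s) (R s ×ˢ R s) (fun q => (q.1, q.2.2.1)) (fun z => z.1 + z.2) (hinj s) (him s)]
      refine BSE_mon hHBS _ _ _ (hne s hs) fun x hx y hy h => ?_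
      obtain ⟨a0, a5⟩ := (hF s x).mp hx
      obtain ⟨_, _, _, _, a6⟩ := (hmem x).mp a0
      obtain ⟨b0, b5⟩ := (hF s y).mp hy
      obtain ⟨_, _, _, _, b6⟩ := (hmem y).mp b0
      show x.1 + x.2.2.1 = y.1 + y.2.2.1
      have h' : (x.1 : ℤ) - x.2.2.2 = (y.1 : ℤ) - y.2.2.2 := h
      omega
    linarith
  -- the average
  have hmass := BSE_mass X S hX
  have hex : ∃ s ∈ BSE_im X S, (H (R s ×ˢ R s) (fun z => z.1 + z.2) - Real.log (R s).card) +
      4 * (l - Real.log (R s).card) ≤ 6 * g := by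
    by_contra hcon
    push Not at hcon
    have hne' : (BSE_im X S).Nonempty := by
      obtain ⟨q, hq⟩ := hX
      exact ⟨S q, (BSE_mem_im X S _).mpr ⟨q, hq, rfl⟩⟩
    have h1 : ∑ s ∈ BSE_im X S, ((BSE_fb X S s).card : ℝ) / X.card * (6 * g) <
        ∑ s ∈ BSE_im X S, ((BSE_fb X S s).card : ℝ) / X.card *
          ((H (R s ×ˢ R s) (fun z => z.1 + z.2) - Real.log (R s).card) + 4 * (l - Real.log (R s).card)) :=
      Finset.sum_lt_sum_of_nonempty hne' fun s hs => mul_lt_mul_of_pos_left (hcon s hs) (hP s hs)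
    have h2 : ∑ s ∈ BSE_im X S, ((BSE_fb X S s).card : ℝ) / X.card *
          ((H (R s ×ˢ R s) (fun z => z.1 + z.2) - Real.log (R s).card) + 4 * (l - Real.log (R s).card)) =
        ∑ s ∈ BSE_im X S, ((BSE_fb X S s).card : ℝ) / X.card * H (R s ×ˢ R s) (fun z => z.1 + z.2) - 5 * A +
          4 * l * ∑ s ∈ BSE_im X S, ((BSE_fb X S s).card : ℝ) / X.card := by
      rw [hA, Finset.mul_sum, Finset.mul_sum, ← Finset.sum_sub_distrib, ← Finset.sum_add_distrib]
      refine Finset.sum_congr rfl fun s _ => ?_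
      ring
    rw [← Finset.sum_mul, hmass] at h1
    rw [h2, hmass] at h1
    linarith
  obtain ⟨s, hs, hs6⟩ := hex
  have hrne := hRne s hs
  have hrc : (0 : ℝ) < (R s).card := by exact_mod_cast hrne.card_pos
  have hRY : R s ⊆ Y := Finset.filter_subset _ _
  have hrl : Real.log (R s).card ≤ l := by
    rw [hl]
    exact Real.log_le_log hrc (by exact_mod_cast Finset.card_le_card hRY)
  have hprod : (R s ×ˢ R s).Nonempty := hrne.product hrne
  have hge : Real.log (R s).card ≤ H (R s ×ˢ R s) (fun z => z.1 + z.2) := by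
    have h1 := BSE_sub hHBS hHSM (R s ×ˢ R s) (fun z => z.1 + z.2) (fun z => z.2) hprod
    have h2 : H (R s ×ˢ R s) (fun z => (z.1 + z.2, z.2)) = Real.log ((R s ×ˢ R s).card : ℝ) :=
      BSE_inj hHBS _ _ hprod fun x _ y _ h => by
        simp only [Prod.mk.injEq] at h
        exact Prod.ext (by omega) h.2
    have h3 : H (R s ×ˢ R s) (fun z => z.2) ≤ Real.log (R s).card :=
      BSE_le hHBS _ _ hprod (R s) fun z hz => (Finset.mem_product.mp hz).2
    rw [h2, Finset.card_product, Nat.cast_mul, Real.log_mul hrc.ne' hrc.ne'] at h1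
    linarith
  refine ⟨R s, hRY, hrne, ?_, ?_, ?_⟩
  · rw [← hg, ← hl]
    linarith
  · rw [← hg]
    linarith
  · rw [← hg]
    exact hg0

end Pool.Agent.HF
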