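import Pool.Agent.helper80.HF.SpecG

set_option autoImplicit false

open scoped MatrixGroups ContDiff Topology UpperHalfPlane ComplexConjugate
open UpperHalfPlane MeasureTheory Filter Set

namespace Pool.Agent.HF

open Pool.Agent.RS
open Pool.Agent.MS (bq)

theorem GPR_a (q p r s A B C D : ℝ) (h1 : |q - 1| ≤ A) (h2 : |p - 1| ≤ B) (h3 : |r| ≤ C) (h4 : |s| ≤ D) :
    |q * p + r * s - 1| ≤ A * B + A + B + C * D := by
  have e : q * p + r * s - 1 = (q - 1) * (p - 1) + (q - 1) + (p - 1) + r * s := by ring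
  rw [e]
  have a1 := abs_add_le ((q - 1) * (p - 1) + (q - 1) + (p - 1)) (r * s)
  have a2 := abs_add_le ((q - 1) * (p - 1) + (q - 1)) (p - 1)
  have a3 := abs_add_le ((q - 1) * (p - 1)) (q - 1)
  have a4 : |(q - 1) * (p - 1)| ≤ A * B := by
    rw [abs_mul]
    exact mul_le_mul h1 h2 (abs_nonneg _) ((abs_nonneg _).trans h1)
  have a5 : |r * s| ≤ C * D := by
    rw [abs_mul]
    exact mul_le_mul h3 h4 (abs_nonneg _) ((abs_nonneg _).trans h3)
  linarith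

theorem GPR_b (q p r s A B C D : ℝ) (h1 : |q - 1| ≤ A) (h2 : |p| ≤ B) (h3 : |r| ≤ C) (h4 : |s - 1| ≤ D) :
    |q * p + r * s| ≤ (1 + A) * B + C * (1 + D) := by
  have a1 := abs_add_le (q * p) (r * s)
  have hq : |q| ≤ 1 + A := by
    have := abs_add_le 1 (q - 1)
    rw [abs_one, add_sub_cancel] at this
    linarith
  have hs : |s| ≤ 1 + D := by
    have := abs_add_le 1 (s - 1)
    rw [abs_one, add_sub_cancel] at this
    linarith
  have a4 : |q * p| ≤ (1 + A) * B := by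
    rw [abs_mul]
    exact mul_le_mul hq h2 (abs_nonneg _) ((abs_nonneg _).trans hq)
  have a5 : |r * s| ≤ C * (1 + D) := by
    rw [abs_mul]
    exact mul_le_mul h3 hs (abs_nonneg _) ((abs_nonneg _).trans h3)
  linarith

theorem GPR_inv (t : ℝ) : (aM t)⁻¹ = aM (-t) := by
  apply inv_eq_of_mul_eq_one_right
  ext i j
  fin_cases i <;> fin_cases j <;> simp [aM, Matrix.mul_apply, Fin.sum_univ_two, ← Real.exp_add] <;> ring_nf

theorem GPR_conj (t : ℝ) (h : SL(2, ℝ)) :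
    ((aM t)⁻¹ * h * aM t).1 0 0 = h.1 0 0 ∧ ((aM t)⁻¹ * h * aM t).1 1 1 = h.1 1 1 ∧
      ((aM t)⁻¹ * h * aM t).1 0 1 = Real.exp (-t) * h.1 0 1 ∧ ((aM t)⁻¹ * h * aM t).1 1 0 = Real.exp t * h.1 1 0 := by
  rw [GPR_inv]
  have e1 : Real.exp (-(t / 2)) * Real.exp (t / 2) = 1 := by
    rw [← Real.exp_add]
    simp
  have e2 : Real.exp (-(t / 2)) * Real.exp (-(t / 2)) = Real.exp (-t) := by
    rw [← Real.exp_add]
    congr 1
    ring
  have e3 : Real.exp (t / 2) * Real.exp (t / 2) = Real.exp t := by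
    rw [← Real.exp_add]
    congr 1
    ring
  have c1 : (aM t).1 = !![Real.exp (t / 2), 0; 0, Real.exp (-(t / 2))] := rfl
  have c2 : (aM (-t)).1 = !![Real.exp (-(t / 2)), 0; 0, Real.exp (t / 2)] := by
    have : (aM (-t)).1 = !![Real.exp (-t / 2), 0; 0, Real.exp (-(-t / 2))] := rfl
    rw [this, neg_div, neg_neg]
  have c3 : (aM (-t) * h * aM t).1 = (aM (-t)).1 * h.1 * (aM t).1 := rfl
  rw [c3, c1, c2]
  refine ⟨?_, ?_, ?_, ?_⟩
  · rw [Matrix.mul_apply, Fin.sum_univ_two, Matrix.mul_apply, Matrix.mul_apply, Fin.sum_univ_two, Fin.sum_univ_two]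
    simp only [Matrix.of_apply, Matrix.cons_val', Matrix.cons_val_zero, Matrix.cons_val_one, Matrix.cons_val_fin_one]
    linear_combination (h.1 0 0) * e1
  · rw [Matrix.mul_apply, Fin.sum_univ_two, Matrix.mul_apply, Matrix.mul_apply, Fin.sum_univ_two, Fin.sum_univ_two]
    simp only [Matrix.of_apply, Matrix.cons_val', Matrix.cons_val_zero, Matrix.cons_val_one, Matrix.cons_val_fin_one]
    linear_combination (h.1 1 1) * e1
  · rw [Matrix.mul_apply, Fin.sum_univ_two, Matrix.mul_apply, Matrix.mul_apply, Fin.sum_univ_two, Fin.sum_univ_two]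
    simp only [Matrix.of_apply, Matrix.cons_val', Matrix.cons_val_zero, Matrix.cons_val_one, Matrix.cons_val_fin_one]
    linear_combination (h.1 0 1) * e2
  · rw [Matrix.mul_apply, Fin.sum_univ_two, Matrix.mul_apply, Matrix.mul_apply, Fin.sum_univ_two, Fin.sum_univ_two]
    simp only [Matrix.of_apply, Matrix.cons_val', Matrix.cons_val_zero, Matrix.cons_val_one, Matrix.cons_val_fin_one]
    linear_combination (h.1 1 0) * e3

theorem GPR_mul (q p : SL(2, ℝ)) (i j : Fin 2) : (q * p).1 i j = q.1 i 0 * p.1 0 j + q.1 i 1 * p.1 1 j := by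
  have : (q * p).1 = q.1 * p.1 := rfl
  rw [this, Matrix.mul_apply, Fin.sum_univ_two]

theorem GPR_proof : GPR_stmt := by
  intro a n m i y y' γ γ' g ha0 ha1 him hh hq
  obtain ⟨p, hp⟩ : ∃ p, p = (aM (i : ℝ))⁻¹ * (y⁻¹ * γ * g) * aM (i : ℝ) := ⟨_, rfl⟩
  obtain ⟨q, hqd⟩ : ∃ q, q = y'⁻¹ * γ' * (y * aM (i : ℝ)) := ⟨_, rfl⟩
  have hprod : y'⁻¹ * (γ' * γ) * (g * aM (i : ℝ)) = q * p := by
    rw [hp, hqd]
    group
  obtain ⟨c1, c2, c3, c4⟩ := GPR_conj (i : ℝ) (y⁻¹ * γ * g)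
  rw [← hp] at c1 c2 c3 c4
  rw [← hqd] at hq
  obtain ⟨h1, h2, h3, h4⟩ := hh
  obtain ⟨q1, q2, q3, q4⟩ := hq
  rw [← c1] at h1
  rw [← c2] at h2
  obtain ⟨E, hE⟩ : ∃ E, E = Real.exp (-(m : ℝ)) := ⟨_, rfl⟩
  have hE0 : 0 < E := by rw [hE]; exact Real.exp_pos _
  have hE1 : E ≤ 1 := by
    rw [hE]
    exact Real.exp_le_one_iff.mpr (by simp)
  have p01 : |p.1 0 1| ≤ 16 * a := by
    rw [c3, abs_mul, abs_of_pos (Real.exp_pos _)]
    have : Real.exp (-(i : ℝ)) ≤ 1 := Real.exp_le_one_iff.mpr (by simp)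
    calc Real.exp (-(i : ℝ)) * |(y⁻¹ * γ * g).1 0 1| ≤ 1 * (16 * a) :=
          mul_le_mul this h3 (abs_nonneg _) zero_le_one
      _ = 16 * a := one_mul _
  have p10 : |p.1 1 0| ≤ 16 * a * E := by
    rw [c4, abs_mul, abs_of_pos (Real.exp_pos _)]
    have h5 : Real.exp (i : ℝ) * Real.exp (-(n : ℝ)) ≤ E := by
      rw [← Real.exp_add, hE]
      apply Real.exp_le_exp.mpr
      have : (i : ℝ) + m ≤ n := by exact_mod_cast him
      linarith
    calc Real.exp (i : ℝ) * |(y⁻¹ * γ * g).1 1 0| ≤ Real.exp (i : ℝ) * (16 * a * Real.exp (-(n : ℝ))) :=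
          mul_le_mul_of_nonneg_left h4 (Real.exp_pos _).le
      _ = 16 * a * (Real.exp (i : ℝ) * Real.exp (-(n : ℝ))) := by ring
      _ ≤ 16 * a * E := mul_le_mul_of_nonneg_left h5 (by linarith)
  rw [← hE] at q4
  rw [hprod, ← hE]
  have haE : a * E ≤ a := by nlinarith
  refine ⟨?_, ?_, ?_, ?_⟩
  · rw [GPR_mul]
    have := GPR_a (q.1 0 0) (p.1 0 0) (q.1 0 1) (p.1 1 0) _ _ _ _ q1 h1 q3 p10
    nlinarith
  · rw [GPR_mul, add_comm]
    have := GPR_a (q.1 1 1) (p.1 1 1) (q.1 1 0) (p.1 0 1) _ _ _ _ q2 h2 q4 p01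
    nlinarith
  · rw [GPR_mul]
    have := GPR_b (q.1 0 0) (p.1 0 1) (q.1 0 1) (p.1 1 1) _ _ _ _ q1 p01 q3 h2
    nlinarith
  · rw [GPR_mul, add_comm]
    have := GPR_b (q.1 1 1) (p.1 1 0) (q.1 1 0) (p.1 0 0) _ _ _ _ q2 p10 q4 h1
    have h6 : 0 ≤ a * E := by positivity
    nlinarith [mul_le_mul_of_nonneg_left ha1 h6]

end Pool.Agent.HF
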