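import Pool.Agent.helper80.HF.SpecG

set_option autoImplicit false

namespace Pool.Agent.HF

open Finset

theorem GTM_fib (N i : ℕ) :
    ((Finset.range (N + 1)).filter fun j : ℕ => ⌊(j : ℝ) * Real.log 2⌋₊ = i).card ≤ 2 := by
  classical
  have hL : 0 < Real.log 2 := Real.log_pos (by norm_num)
  have hL2 : (1 : ℝ) < 2 * Real.log 2 := by
    have := Real.log_two_gt_d9
    linarith
  rcases Finset.eq_empty_or_nonempty ((Finset.range (N + 1)).filter fun j : ℕ => ⌊(j : ℝ) * Real.log 2⌋₊ = i) with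
    he | hne
  · rw [he]
    simp
  · obtain ⟨j0, hj0⟩ : ∃ j0, j0 = ((Finset.range (N + 1)).filter fun j : ℕ => ⌊(j : ℝ) * Real.log 2⌋₊ = i).min' hne :=
      ⟨_, rfl⟩
    have hj0m := Finset.min'_mem _ hne
    rw [← hj0] at hj0m
    have hsub : ((Finset.range (N + 1)).filter fun j : ℕ => ⌊(j : ℝ) * Real.log 2⌋₊ = i) ⊆ {j0, j0 + 1} := by
      intro j hj
      have h1 : j0 ≤ j := by
        rw [hj0]
        exact Finset.min'_le _ _ hj
      have h2 := (Finset.mem_filter.mp hj).2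
      have h3 := (Finset.mem_filter.mp hj0m).2
      have h4 : (j : ℝ) * Real.log 2 < i + 1 := by
        have := Nat.lt_floor_add_one ((j : ℝ) * Real.log 2)
        rw [h2] at this
        exact this
      have h5 : (i : ℝ) ≤ (j0 : ℝ) * Real.log 2 := by
        have := Nat.floor_le (show 0 ≤ (j0 : ℝ) * Real.log 2 by positivity)
        rw [h3] at this
        exact this
      have h6 : j < j0 + 2 := by
        by_contra hc
        have h7 : j0 + 2 ≤ j := not_lt.mp hc
        have h8 : ((j0 : ℝ) + 2) ≤ j := by exact_mod_cast h7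
        nlinarith
      rw [Finset.mem_insert, Finset.mem_singleton]
      omega
    exact (Finset.card_le_card hsub).trans Finset.card_le_two

theorem GTM_proof : GTM_stmt := by
  classical
  intro n m N I hm hmn hN1 hN2 hI
  have hL : 0 < Real.log 2 := Real.log_pos (by norm_num)
  have hL2 : (1 : ℝ) < 2 * Real.log 2 := by
    have := Real.log_two_gt_d9
    linarith
  have hnN : n ≤ N := by
    have h1 : (2 : ℝ) ^ N ≤ Real.exp N := by
      have h2 : (2 : ℝ) ≤ Real.exp 1 := by
        have := Real.add_one_le_exp (1 : ℝ)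
        linarith
      calc (2 : ℝ) ^ N ≤ (Real.exp 1) ^ N := pow_le_pow_left₀ (by norm_num) h2 N
        _ = Real.exp N := by rw [← Real.exp_nat_mul, mul_one]
    have h3 := Real.exp_le_exp.mp (hN1.trans h1)
    exact_mod_cast h3
  have hNL : (N : ℝ) * Real.log 2 < n + Real.log 2 := by
    have h1 := Real.log_lt_log (by positivity) hN2
    rw [Real.log_pow, Real.log_mul (by norm_num) (Real.exp_pos _).ne', Real.log_exp] at h1
    linarith
  -- the two kinds
  have hA : ((Finset.range (N + 1)).filter fun j : ℕ => ⌊(j : ℝ) * Real.log 2⌋₊ ∈ I).card ≤ 2 * I.card := by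
    have h1 := Finset.card_le_mul_card_image (f := fun j : ℕ => ⌊(j : ℝ) * Real.log 2⌋₊)
      ((Finset.range (N + 1)).filter fun j : ℕ => ⌊(j : ℝ) * Real.log 2⌋₊ ∈ I) 2 (fun i _ => by
        refine (Finset.card_le_card ?_).trans (GTM_fib N i)
        intro j hj
        obtain ⟨hj1, hj2⟩ := Finset.mem_filter.mp hj
        exact Finset.mem_filter.mpr ⟨(Finset.mem_filter.mp hj1).1, hj2⟩)
    refine h1.trans (Nat.mul_le_mul_left 2 (Finset.card_le_card ?_))
    intro i hi
    obtain ⟨j, hj, rfl⟩ := Finset.mem_image.mp hi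
    exact (Finset.mem_filter.mp hj).2
  have hB : ((Finset.range (N + 1)).filter fun j : ℕ => n < ⌊(j : ℝ) * Real.log 2⌋₊ + m).card ≤ 2 * m := by
    have hsub : ((Finset.range (N + 1)).filter fun j : ℕ => n < ⌊(j : ℝ) * Real.log 2⌋₊ + m) ⊆
        Finset.Ico (N + 1 - 2 * m) (N + 1) := by
      intro j hj
      obtain ⟨hj1, hj2⟩ := Finset.mem_filter.mp hj
      rw [Finset.mem_range] at hj1
      have h1 := Nat.floor_le (show 0 ≤ (j : ℝ) * Real.log 2 by positivity)
      have h2 : (n : ℝ) + 1 ≤ (⌊(j : ℝ) * Real.log 2⌋₊ : ℝ) + m := by exact_mod_cast hj2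
      have h3 : N + 1 ≤ j + 2 * m := by
        by_contra hc
        have h4 : j + 2 * m ≤ N := by omega
        have h5 : (j : ℝ) + 2 * m ≤ N := by exact_mod_cast h4
        have h6 : (1 : ℝ) ≤ m := by exact_mod_cast hm
        nlinarith
      rw [Finset.mem_Ico]
      omega
    refine (Finset.card_le_card hsub).trans ?_
    rw [Nat.card_Ico]
    omega
  have hAB : ((Finset.range (N + 1)).filter fun j : ℕ => ⌊(j : ℝ) * Real.log 2⌋₊ ∈ I ∨
      n < ⌊(j : ℝ) * Real.log 2⌋₊ + m).card ≤ 2 * I.card + 2 * m := by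
    rw [Finset.filter_or]
    exact (Finset.card_union_le _ _).trans (add_le_add hA hB)
  have hfin : 128 * ((Finset.range (N + 1)).filter fun j : ℕ => ⌊(j : ℝ) * Real.log 2⌋₊ ∈ I ∨
      n < ⌊(j : ℝ) * Real.log 2⌋₊ + m).card ≤ N := by omega
  have heq : ∀ D : DecidablePred fun j : ℕ => ⌊(j : ℝ) * Real.log 2⌋₊ ∈ I ∨ n < ⌊(j : ℝ) * Real.log 2⌋₊ + m,
      (@Finset.filter ℕ (fun j : ℕ => ⌊(j : ℝ) * Real.log 2⌋₊ ∈ I ∨ n < ⌊(j : ℝ) * Real.log 2⌋₊ + m) D
        (Finset.range (N + 1))).card = ((Finset.range (N + 1)).filter fun j : ℕ => ⌊(j : ℝ) * Real.log 2⌋₊ ∈ I ∨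
      n < ⌊(j : ℝ) * Real.log 2⌋₊ + m).card := by
    intro D
    congr 1
  rw [heq]
  exact hfin

end Pool.Agent.HF
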