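import Pool.Agent.helper84.HF.SpecH
import Pool.Agent.helper23.HF.BSE

set_option autoImplicit false

open Finset

namespace Pool.Agent.HF

theorem STJ_E {α κ : Type} (X : Finset α) (g : α → κ) (F : κ → ℝ) :
    ∑ j ∈ BSE_im X g, ((BSE_fb X g j).card : ℝ) / X.card * F j = (∑ x ∈ X, F (g x)) / X.card := by
  classical
  have h2 : BSE_im X g = X.image g := by
    ext j
    rw [BSE_mem_im, Finset.mem_image]
  rw [h2, ← Finset.sum_fiberwise_of_maps_to (s := X) (t := X.image g) (g := g)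
    (fun x hx => Finset.mem_image_of_mem _ hx) (fun x => F (g x)), Finset.sum_div]
  refine Finset.sum_congr rfl fun j _ => ?_
  have h3 : BSE_fb X g j = X.filter fun x => g x = j := by
    ext x
    rw [BSE_mem_fb, Finset.mem_filter]
  rw [h3]
  have h4 : ∑ x ∈ X.filter (fun x => g x = j), F (g x) = ∑ _x ∈ X.filter (fun x => g x = j), F j :=
    Finset.sum_congr rfl fun x hx => by rw [(Finset.mem_filter.mp hx).2]
  rw [h4, Finset.sum_const, nsmul_eq_mul]
  ring

theorem STJ_mem (k : ℕ) (R : Finset ℕ) (u : Fin (k + 1) → ℕ) : u ∈ Rk (k + 1) R ↔ ∀ i, u i ∈ R := by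
  unfold Rk
  exact Fintype.mem_piFinset

theorem STJ_ind (k : ℕ) (R : Finset ℕ) (φ : ℕ → ℝ) (ψ : (Fin (k + 1) → ℕ) → ℝ)
    (hψ : ∀ u r, ψ (Function.update u 0 r) = ψ u) :
    (R.card : ℝ) * ∑ u ∈ Rk (k + 1) R, φ (u 0) * ψ u = (∑ r ∈ R, φ r) * ∑ u ∈ Rk (k + 1) R, ψ u := by
  classical
  have h1 : (R.card : ℝ) * ∑ u ∈ Rk (k + 1) R, φ (u 0) * ψ u =
      ∑ p ∈ R ×ˢ Rk (k + 1) R, φ (p.2 0) * ψ p.2 := by
    rw [Finset.sum_product]
    show _ = ∑ _x ∈ R, ∑ y ∈ Rk (k + 1) R, φ (y 0) * ψ y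
    rw [Finset.sum_const, nsmul_eq_mul]
  have h2 : (∑ r ∈ R, φ r) * ∑ u ∈ Rk (k + 1) R, ψ u = ∑ p ∈ R ×ˢ Rk (k + 1) R, φ p.1 * ψ p.2 := by
    rw [Finset.sum_mul_sum, Finset.sum_product]
  rw [h1, h2]
  have hmaps : ∀ p ∈ R ×ˢ Rk (k + 1) R, ((p.2 0, Function.update p.2 0 p.1) : ℕ × (Fin (k + 1) → ℕ)) ∈
      R ×ˢ Rk (k + 1) R := by
    intro p hp
    obtain ⟨hp1, hp2⟩ := Finset.mem_product.mp hp
    rw [STJ_mem] at hp2
    refine Finset.mem_product.mpr ⟨hp2 0, (STJ_mem k R _).mpr fun i => ?_⟩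
    by_cases hi : i = 0
    · rw [hi]
      show Function.update p.2 0 p.1 0 ∈ R
      rw [Function.update_self]
      exact hp1
    · show Function.update p.2 0 p.1 i ∈ R
      rw [Function.update_of_ne hi]
      exact hp2 i
  have hinv : ∀ p ∈ R ×ˢ Rk (k + 1) R,
      ((Function.update p.2 0 p.1 0, Function.update (Function.update p.2 0 p.1) 0 (p.2 0)) :
        ℕ × (Fin (k + 1) → ℕ)) = p := by
    intro p _
    rw [Function.update_self, Function.update_idem, Function.update_eq_self]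
  refine Finset.sum_nbij' (fun p => (p.2 0, Function.update p.2 0 p.1))
    (fun p => (p.2 0, Function.update p.2 0 p.1)) hmaps hmaps hinv hinv ?_
  intro p _
  show φ (p.2 0) * ψ p.2 = φ (p.2 0) * ψ (Function.update p.2 0 p.1)
  rw [hψ]

theorem STJ_diam (R : Finset ℕ) (N i p : ℕ) : ∀ u ∈ nd R N i p, ∀ v ∈ nd R N i p, |(u : ℝ) - v| ≤ (2 : ℝ) ^ (N - i) := by
  intro u hu v hv
  have h1 : u / 2 ^ (N - i) = p := (Finset.mem_filter.mp hu).2
  have h2 : v / 2 ^ (N - i) = p := (Finset.mem_filter.mp hv).2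
  have hpos : 0 < 2 ^ (N - i) := by positivity
  have a1 := Nat.div_add_mod u (2 ^ (N - i))
  have a2 := Nat.mod_lt u hpos
  have b1 := Nat.div_add_mod v (2 ^ (N - i))
  have b2 := Nat.mod_lt v hpos
  rw [h1] at a1
  rw [h2] at b1
  have c1 : u ≤ v + 2 ^ (N - i) := by omega
  have c2 : v ≤ u + 2 ^ (N - i) := by omega
  have d1 : (u : ℝ) ≤ v + (2 : ℝ) ^ (N - i) := by exact_mod_cast c1
  have d2 : (v : ℝ) ≤ u + (2 : ℝ) ^ (N - i) := by exact_mod_cast c2
  rw [abs_le]
  constructor <;> linarith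

open Classical in
theorem STJ_gen (hHBS : HBS_stmt) (hHCH : HCH_stmt) (hHSM : HSM_stmt) (hSHF : SHF_stmt) (k : ℕ) (R : Finset ℕ)
    (N m j : ℕ) (hR : R.Nonempty) (hj : j + (2 * m + 3) ≤ N)
    (hFOU : ∀ X : Fin (k + 1) → Finset ℕ, (∀ i, (X i).Nonempty) →
      (∀ i, i ≠ 0 → ∀ u ∈ X i, ∀ v ∈ X i, |(u : ℝ) - v| ≤ (2 : ℝ) ^ (N - j - (2 * m + 3))) →
      ((k : ℝ) / 64 ≤ (({i | i ≠ 0 ∧ (4 : ℝ) ^ (N - j - (2 * m + 3)) / 2 ^ 96 ≤ vp (X i)} :
        Set (Fin (k + 1))).ncard : ℝ)) →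
      ((m : ℝ) - 3) * Real.log 2 ≤ H (Fintype.piFinset X) (fun u => (0 + sm u) / 2 ^ (N - j - m) % 2 ^ m))
    (hVAS : ∀ X : Fin (k + 1) → Finset ℕ, (∀ i, (X i).Nonempty) →
      (∀ u ∈ X 0, ∀ v ∈ X 0, |(u : ℝ) - v| ≤ (2 : ℝ) ^ (N - j)) →
      (∀ i, i ≠ 0 → ∀ u ∈ X i, ∀ v ∈ X i, |(u : ℝ) - v| ≤ (2 : ℝ) ^ (N - j - (2 * m + 3))) →
      H (Fintype.piFinset X) (fun u => (0 + sm u) / 2 ^ (N - j)) ≤ 73) :
    hh R N m j - 75 + PN R N k (j + (2 * m + 3)) * (((m : ℝ) - 3) * Real.log 2 - hh R N m j) ≤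
      H (Rk (k + 1) R) (fun u => px N (j + m) (sm u)) - H (Rk (k + 1) R) (fun u => px N j (sm u)) := by
  obtain ⟨X, hXd⟩ : ∃ X, X = Rk (k + 1) R := ⟨_, rfl⟩
  have hXm : ∀ u, u ∈ X ↔ ∀ i, u i ∈ R := fun u => by rw [hXd, STJ_mem]
  obtain ⟨r0, hr0⟩ := hR
  have hR : R.Nonempty := ⟨r0, hr0⟩
  have hX : X.Nonempty := ⟨fun _ => r0, (hXm _).mpr fun _ => hr0⟩
  have hRc : (0 : ℝ) < R.card := by exact_mod_cast hR.card_pos
  have hXc : (0 : ℝ) < X.card := by exact_mod_cast hX.card_pos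
  have hdiv : ∀ x : ℕ, px N j x = px N (j + m) x / 2 ^ m := by
    intro x
    unfold px
    rw [Nat.div_div_eq_div_mul, ← pow_add]
    congr 2
    omega
  obtain ⟨L, hL⟩ : ∃ L, L = Real.log 2 := ⟨_, rfl⟩
  have hL0 : 0 ≤ L := by rw [hL]; exact Real.log_nonneg (by norm_num)
  have hL1 : L ≤ 1 := by
    rw [hL]
    have := Real.log_two_lt_d9
    linarith
  let G : (Fin (k + 1) → ℕ) → (Fin (k + 1) → ℕ) := fun u l => if l = 0 then px N j (u l) else px N (j + (2 * m + 3)) (u l)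
  let Z : (Fin (k + 1) → ℕ) → Fin (k + 1) → Finset ℕ := fun γ l =>
    if l = 0 then nd R N j (γ l) else nd R N (j + (2 * m + 3)) (γ l)
  have hZ0 : ∀ γ, Z γ 0 = nd R N j (γ 0) := fun γ => if_pos rfl
  have hZ1 : ∀ γ l, l ≠ 0 → Z γ l = nd R N (j + (2 * m + 3)) (γ l) := fun γ l hl => if_neg hl
  have hG0 : ∀ u, G u 0 = px N j (u 0) := fun u => if_pos rfl
  have hG1 : ∀ u l, l ≠ 0 → G u l = px N (j + (2 * m + 3)) (u l) := fun u l hl => if_neg hl
  have hfib : ∀ γ, BSE_fb X G γ = Fintype.piFinset (Z γ) := by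
    intro γ
    ext u
    rw [BSE_mem_fb, hXm, Fintype.mem_piFinset]
    constructor
    · rintro ⟨h1, h2⟩ l
      by_cases hl : l = 0
      · rw [hl, hZ0]
        refine Finset.mem_filter.mpr ⟨h1 0, ?_⟩
        rw [← h2, hG0]
      · rw [hZ1 γ l hl]
        refine Finset.mem_filter.mpr ⟨h1 l, ?_⟩
        rw [← h2, hG1 u l hl]
    · intro h
      refine ⟨fun l => ?_, ?_⟩
      · have h1 := h l
        by_cases hl : l = 0
        · rw [hl, hZ0] at h1
          rw [hl]
          exact (Finset.mem_filter.mp h1).1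
        · rw [hZ1 γ l hl] at h1
          exact (Finset.mem_filter.mp h1).1
      · funext l
        have h1 := h l
        by_cases hl : l = 0
        · rw [hl, hZ0] at h1
          rw [hl, hG0]
          exact (Finset.mem_filter.mp h1).2
        · rw [hZ1 γ l hl] at h1
          rw [hG1 u l hl]
          exact (Finset.mem_filter.mp h1).2
  have hfne : ∀ γ ∈ BSE_im X G, (BSE_fb X G γ).Nonempty := by
    intro γ hγ
    obtain ⟨u, hu, huγ⟩ := (BSE_mem_im X G γ).mp hγ
    exact ⟨u, (BSE_mem_fb X G γ u).mpr ⟨hu, huγ⟩⟩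
  have hZne : ∀ γ ∈ BSE_im X G, ∀ l, (Z γ l).Nonempty := by
    intro γ hγ l
    obtain ⟨u, hu⟩ := hfne γ hγ
    rw [hfib γ, Fintype.mem_piFinset] at hu
    exact ⟨u l, hu l⟩
  have hs : N - (j + (2 * m + 3)) = N - j - (2 * m + 3) := by omega
  have hdiam1 : ∀ γ, ∀ l, l ≠ 0 → ∀ u ∈ Z γ l, ∀ v ∈ Z γ l, |(u : ℝ) - v| ≤ (2 : ℝ) ^ (N - j - (2 * m + 3)) := by
    intro γ l hl
    rw [hZ1 γ l hl, ← hs]
    exact STJ_diam R N _ _
  have hdiam0 : ∀ γ, ∀ u ∈ Z γ 0, ∀ v ∈ Z γ 0, |(u : ℝ) - v| ≤ (2 : ℝ) ^ (N - j) := by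
    intro γ
    rw [hZ0]
    exact STJ_diam R N _ _
  let Nice : (Fin (k + 1) → ℕ) → Prop := fun γ =>
    (k : ℝ) / 64 ≤ ((Finset.univ.filter (fun l : Fin (k + 1) => l ≠ 0 ∧ nic R N (j + (2 * m + 3)) (γ l))).card : ℝ)
  let h0 : ℕ → ℝ := fun p => H (nd R N j p) (px N (j + m))
  let B : (Fin (k + 1) → ℕ) → ℝ := fun γ => if Nice γ then ((m : ℝ) - 3) * L else h0 (γ 0) - L
  -- one fibre
  have hone : ∀ γ ∈ BSE_im X G, B γ - 73 ≤
      H (BSE_fb X G γ) (fun u => px N (j + m) (sm u)) - H (BSE_fb X G γ) (fun u => px N j (sm u)) := by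
    intro γ hγ
    have hv' : H (BSE_fb X G γ) (fun u => px N j (sm u)) ≤ 73 := by
      have h1 := hVAS (Z γ) (hZne γ hγ) (hdiam0 γ) (hdiam1 γ)
      rw [hfib γ]
      have h2 : (fun u : Fin (k + 1) → ℕ => px N j (sm u)) = fun u => (0 + sm u) / 2 ^ (N - j) := by
        funext u
        unfold px
        rw [zero_add]
      rw [h2]
      exact h1
    have h3 : (fun u : Fin (k + 1) → ℕ => px N (j + m) (sm u)) = fun u => (0 + sm u) / 2 ^ (N - j - m) := by
      funext u
      unfold px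
      rw [zero_add, Nat.sub_sub]
    have hv : B γ ≤ H (BSE_fb X G γ) (fun u => px N (j + m) (sm u)) := by
      by_cases hn : Nice γ
      · have hB : B γ = ((m : ℝ) - 3) * L := if_pos hn
        rw [hB, hfib γ, h3, hL]
        have hset : ({i | i ≠ 0 ∧ (4 : ℝ) ^ (N - j - (2 * m + 3)) / 2 ^ 96 ≤ vp (Z γ i)} : Set (Fin (k + 1))) =
            ((Finset.univ.filter (fun l : Fin (k + 1) => l ≠ 0 ∧ nic R N (j + (2 * m + 3)) (γ l)) :
              Finset (Fin (k + 1))) : Set (Fin (k + 1))) := by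
          ext l
          simp only [Set.mem_ofPred_eq, Finset.coe_filter, Finset.mem_univ, true_and]
          constructor
          · rintro ⟨h5, h6⟩
            refine ⟨h5, ?_⟩
            rw [hZ1 γ l h5] at h6
            unfold nic
            rw [hs]
            exact h6
          · rintro ⟨h5, h6⟩
            refine ⟨h5, ?_⟩
            rw [hZ1 γ l h5]
            unfold nic at h6
            rw [hs] at h6
            exact h6
        have h5 := hFOU (Z γ) (hZne γ hγ) (hdiam1 γ) (by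
          rw [hset, Set.ncard_coe_finset]
          exact hn)
        refine h5.trans ?_
        have hne : (Fintype.piFinset (Z γ)).Nonempty := by
          rw [← hfib γ]
          exact hfne γ hγ
        exact BSE_mon hHBS (Fintype.piFinset (Z γ)) (fun u => (0 + sm u) / 2 ^ (N - j - m))
          (fun u => (0 + sm u) / 2 ^ (N - j - m) % 2 ^ m) hne fun x _ y _ h => by
            have h' : (0 + sm x) / 2 ^ (N - j - m) = (0 + sm y) / 2 ^ (N - j - m) := h
            show (0 + sm x) / 2 ^ (N - j - m) % 2 ^ m = (0 + sm y) / 2 ^ (N - j - m) % 2 ^ m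
            rw [h']
      · have hB : B γ = h0 (γ 0) - L := if_neg hn
        rw [hB, hfib γ, h3, hL]
        have h5 := hSHF k (N - j - m) 0 (Z γ) (hZne γ hγ)
        rw [hZ0] at h5
        have h6 : h0 (γ 0) = H (nd R N j (γ 0)) (fun u => u / 2 ^ (N - j - m)) := by
          show H (nd R N j (γ 0)) (px N (j + m)) = _
          congr 1
          funext u
          unfold px
          rw [Nat.sub_sub]
        rw [h6]
        exact h5
    linarith
  -- the chain rule
  have hchain : ∑ γ ∈ BSE_im X G, ((BSE_fb X G γ).card : ℝ) / X.card * (B γ - 73) ≤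
      H X (fun u => px N (j + m) (sm u)) - H X (fun u => px N j (sm u)) := by
    have h1 := BSE_chain hHCH X (fun u => px N (j + m) (sm u)) G hX
    have h2 := BSE_chain hHCH X (fun u => px N j (sm u)) G hX
    have h3 := hHSM (Fin (k + 1) → ℕ) ℕ (Fin (k + 1) → ℕ) ℕ X (fun u => px N (j + m) (sm u)) G
      (fun u => px N j (sm u)) hX
    have h4 : H X (fun u => (px N (j + m) (sm u), G u)) ≤
        H X (fun u => (px N (j + m) (sm u), G u, px N j (sm u))) :=
      BSE_mon hHBS X _ _ hX fun x _ y _ h => by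
        have a := (Prod.ext_iff.mp h).1
        have b := (Prod.ext_iff.mp (Prod.ext_iff.mp h).2).1
        exact Prod.ext a b
    have h5 : H X (fun u => (px N (j + m) (sm u), px N j (sm u))) ≤ H X (fun u => px N (j + m) (sm u)) :=
      BSE_mon hHBS X _ _ hX fun x _ y _ h => by
        have h' : px N (j + m) (sm x) = px N (j + m) (sm y) := h
        refine Prod.ext h' ?_
        show px N j (sm x) = px N j (sm y)
        rw [hdiv, hdiv, h']
    have h6 : H X (fun u => (G u, px N j (sm u))) ≤ H X (fun u => (px N j (sm u), G u)) :=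
      BSE_mon hHBS X _ _ hX fun x _ y _ h => by
        have a := (Prod.ext_iff.mp h).1
        have b := (Prod.ext_iff.mp h).2
        exact Prod.ext b a
    have h7 : ∑ γ ∈ BSE_im X G, ((BSE_fb X G γ).card : ℝ) / X.card * (B γ - 73) ≤
        ∑ γ ∈ BSE_im X G, (((BSE_fb X G γ).card : ℝ) / X.card * H (BSE_fb X G γ) (fun u => px N (j + m) (sm u)) -
          ((BSE_fb X G γ).card : ℝ) / X.card * H (BSE_fb X G γ) (fun u => px N j (sm u))) := by
      refine Finset.sum_le_sum fun γ hγ => ?_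
      rw [← mul_sub]
      exact mul_le_mul_of_nonneg_left (hone γ hγ) (div_nonneg (Nat.cast_nonneg _) (Nat.cast_nonneg _))
    rw [Finset.sum_sub_distrib] at h7
    linarith
  rw [STJ_E X G (fun γ => B γ - 73)] at hchain
  -- averages
  let ν : (Fin (k + 1) → ℕ) → ℝ := fun u => if Nice (G u) then 1 else 0
  have hν : ∀ u r, ν (Function.update u 0 r) = ν u := by
    intro u r
    have h1 : (Finset.univ.filter (fun l : Fin (k + 1) => l ≠ 0 ∧ nic R N (j + (2 * m + 3)) (G (Function.update u 0 r) l))) =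
        Finset.univ.filter (fun l : Fin (k + 1) => l ≠ 0 ∧ nic R N (j + (2 * m + 3)) (G u l)) := by
      refine Finset.filter_congr fun l _ => ?_
      constructor
      · rintro ⟨h5, h6⟩
        refine ⟨h5, ?_⟩
        rw [hG1 _ l h5, Function.update_of_ne h5] at h6
        rw [hG1 _ l h5]
        exact h6
      · rintro ⟨h5, h6⟩
        refine ⟨h5, ?_⟩
        rw [hG1 _ l h5] at h6
        rw [hG1 _ l h5, Function.update_of_ne h5]
        exact h6
    have h2 : Nice (G (Function.update u 0 r)) ↔ Nice (G u) := by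
      show (k : ℝ) / 64 ≤ _ ↔ (k : ℝ) / 64 ≤ _
      rw [h1]
    show (if Nice (G (Function.update u 0 r)) then (1 : ℝ) else 0) = if Nice (G u) then 1 else 0
    by_cases hn : Nice (G u)
    · rw [if_pos hn, if_pos (h2.mpr hn)]
    · rw [if_neg hn, if_neg fun h => hn (h2.mp h)]
  obtain ⟨P, hP⟩ : ∃ P, P = PN R N k (j + (2 * m + 3)) := ⟨_, rfl⟩
  have hsumν : ∑ u ∈ X, ν u = X.card * P := by
    have h1 : ∑ u ∈ X, ν u = ((X.filter fun u => Nice (G u)).card : ℝ) := by
      show ∑ u ∈ X, (if Nice (G u) then (1 : ℝ) else 0) = _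
      rw [Finset.sum_ite, Finset.sum_const, Finset.sum_const_zero, nsmul_eq_mul, mul_one, add_zero]
    have h2 : P = ((X.filter fun u => Nice (G u)).card : ℝ) / X.card := by
      rw [hP, hXd]
      unfold PN
      congr 2
      congr 1
      refine Finset.filter_congr fun u _ => ?_
      have h1 : (Finset.univ.filter (fun l : Fin (k + 1) => l ≠ 0 ∧ nic R N (j + (2 * m + 3)) (px N (j + (2 * m + 3)) (u l)))) =
          Finset.univ.filter (fun l : Fin (k + 1) => l ≠ 0 ∧ nic R N (j + (2 * m + 3)) (G u l)) := by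
        refine Finset.filter_congr fun l _ => ?_
        constructor
        · rintro ⟨h5, h6⟩
          refine ⟨h5, ?_⟩
          rw [hG1 _ l h5]
          exact h6
        · rintro ⟨h5, h6⟩
          refine ⟨h5, ?_⟩
          rw [hG1 _ l h5] at h6
          exact h6
      show (k : ℝ) / 64 ≤ _ ↔ (k : ℝ) / 64 ≤ _
      rw [h1]
    rw [h1, h2, mul_div_cancel₀ _ hXc.ne']
  have hP0 : 0 ≤ P := by
    rw [hP]
    exact div_nonneg (Nat.cast_nonneg _) (Nat.cast_nonneg _)
  have hP1 : P ≤ 1 := by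
    have h1 : ∑ u ∈ X, ν u ≤ ∑ _u ∈ X, (1 : ℝ) := by
      refine Finset.sum_le_sum fun u _ => ?_
      show (if Nice (G u) then (1 : ℝ) else 0) ≤ 1
      split_ifs <;> norm_num
    rw [hsumν, Finset.sum_const, nsmul_eq_mul, mul_one] at h1
    exact le_of_mul_le_mul_left (by linarith) hXc
  have hhh : (∑ r ∈ R, h0 (px N j r)) / R.card = hh R N m j := by
    have h1 := BSE_chain hHCH R (px N (j + m)) (px N j) hR
    have h2 : H R (fun x => (px N (j + m) x, px N j x)) = H R (px N (j + m)) := by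
      refine le_antisymm ?_ ?_
      · refine BSE_mon hHBS R _ _ hR fun x _ y _ h => ?_
        refine Prod.ext h ?_
        show px N j x = px N j y
        rw [hdiv, hdiv, h]
      · exact BSE_mon hHBS R _ _ hR fun x _ y _ h => (Prod.ext_iff.mp h).1
    have h3 : ∑ p ∈ BSE_im R (px N j), ((BSE_fb R (px N j) p).card : ℝ) / R.card * H (BSE_fb R (px N j) p) (px N (j + m)) =
        ∑ p ∈ BSE_im R (px N j), ((BSE_fb R (px N j) p).card : ℝ) / R.card * h0 p := by
      refine Finset.sum_congr rfl fun p _ => ?_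
      have h4 : BSE_fb R (px N j) p = nd R N j p := by
        ext x
        rw [BSE_mem_fb]
        unfold nd
        rw [Finset.mem_filter]
      rw [h4]
    rw [h3, STJ_E R (px N j) h0, h2] at h1
    unfold hh
    linarith
  have hind := STJ_ind k R (fun r => h0 (px N j r)) (fun u => 1 - ν u) (fun u r => by
    show 1 - ν (Function.update u 0 r) = 1 - ν u
    rw [hν])
  rw [← hXd] at hind
  have hsum1 : ∑ u ∈ X, (1 - ν u) = X.card * (1 - P) := by
    rw [Finset.sum_sub_distrib, hsumν, Finset.sum_const, nsmul_eq_mul]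
    ring
  have hsum2 : ∑ u ∈ X, h0 (px N j (u 0)) * (1 - ν u) = hh R N m j * (X.card * (1 - P)) := by
    rw [hsum1] at hind
    have h1 : (R.card : ℝ) * ∑ u ∈ X, h0 (px N j (u 0)) * (1 - ν u) =
        (R.card : ℝ) * (hh R N m j * (X.card * (1 - P))) := by
      rw [hind, ← hhh]
      field_simp
    exact mul_left_cancel₀ hRc.ne' h1
  have hB : ∀ u, B (G u) - 73 = ν u * (((m : ℝ) - 3) * L) + h0 (px N j (u 0)) * (1 - ν u) - (1 - ν u) * L - 73 := by
    intro u
    show (if Nice (G u) then ((m : ℝ) - 3) * L else h0 (G u 0) - L) - 73 =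
      (if Nice (G u) then (1 : ℝ) else 0) * (((m : ℝ) - 3) * L) +
        h0 (px N j (u 0)) * (1 - if Nice (G u) then (1 : ℝ) else 0) - (1 - if Nice (G u) then (1 : ℝ) else 0) * L - 73
    rw [hG0]
    by_cases hn : Nice (G u)
    · rw [if_pos hn, if_pos hn]
      ring
    · rw [if_neg hn, if_neg hn]
      ring
  have htot : (∑ u ∈ X, (B (G u) - 73)) / X.card = P * (((m : ℝ) - 3) * L) + hh R N m j * (1 - P) - (1 - P) * L - 73 := by
    rw [Finset.sum_congr rfl fun u _ => hB u, Finset.sum_sub_distrib, Finset.sum_sub_distrib, Finset.sum_add_distrib,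
      ← Finset.sum_mul, ← Finset.sum_mul, hsumν, hsum1, hsum2, Finset.sum_const, nsmul_eq_mul]
    field_simp
  rw [htot] at hchain
  rw [← hP, ← hXd, ← hL]
  refine le_trans ?_ hchain
  nlinarith [mul_le_mul_of_nonneg_right hP1 hL0, mul_nonneg hP0 hL0]

theorem STJ_proof (hHBS : HBS_stmt) (hHCH : HCH_stmt) (hHSM : HSM_stmt) (hFOU : FOU_stmt) (hSHF : SHF_stmt)
    (hVAS : VAS_stmt) : STJ_stmt := by
  intro R N m j hR _ hm hj
  refine STJ_gen hHBS hHCH hHSM hSHF (4 ^ (2 * m + 53)) R N m j hR hj ?_ ?_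
  · intro X h1 h2 h3
    refine hFOU m (N - j) 0 X (by omega) (by omega) h1 h2 ?_
    rw [Nat.cast_pow] at h3
    exact h3
  · intro X h1 h2 h3
    exact hVAS m (N - j) 0 X (by omega) h1 h2 h3

end Pool.Agent.HF
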